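import Pool.Agent.PKA.Targets

set_option autoImplicit false

/-!
# PKA: the sequence `aa`
-/

open Filter Topology Finset

namespace Pool.Agent.PKA

namespace AA_

theorem rec_eq (k : ℕ) (β : ℝ) (hk : 1 ≤ k) (n : ℕ) :
    aa k β (n + 1) = aa k β n - β * sh (aa k β) k (n + 1) := by
  rw [aa, sh]
  by_cases h : k ≤ n + 1
  · rw [dif_pos ⟨h, hk⟩, if_pos h]
  · rw [dif_neg (fun h' => h h'.1), if_neg h, mul_zero]

theorem iter (f : ℕ → ℝ) (x : ℝ) (hx : 0 ≤ x) (m : ℕ) :
    ∀ j : ℕ, (∀ i < j, x * f (m + i) ≤ f (m + i + 1)) → x ^ j * f m ≤ f (m + j) := by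
  intro j
  induction j with
  | zero =>
    intro _
    simp
  | succ j ih =>
    intro h
    have h1 := ih (fun i hi => h i (by omega))
    have h2 := h j (by omega)
    calc x ^ (j + 1) * f m = x * (x ^ j * f m) := by ring
      _ ≤ x * f (m + j) := by gcongr
      _ ≤ f (m + j + 1) := h2

theorem main (k : ℕ) (β κ : ℝ) (hk : 1 ≤ k) (hβ : 0 < β) (hκ : 0 < κ) (hκ1 : κ < 1)
    (hb : β ≤ κ * (1 - κ) ^ (k - 1)) (n : ℕ) :
    0 < aa k β n ∧ (1 - κ) * aa k β n ≤ aa k β (n + 1) ∧ aa k β (n + 1) ≤ aa k β n := by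
  have h1κ : 0 < 1 - κ := by linarith
  induction n using Nat.strong_induction_on with
  | _ n ih =>
    have hpos : 0 < aa k β n := by
      cases n with
      | zero =>
        rw [aa]
        exact one_pos
      | succ n =>
        obtain ⟨h1, h2, -⟩ := ih n (by omega)
        exact lt_of_lt_of_le (mul_pos h1κ h1) h2
    have hrec := rec_eq k β hk n
    have hbound : 0 ≤ sh (aa k β) k (n + 1) ∧ β * sh (aa k β) k (n + 1) ≤ κ * aa k β n := by
      rw [sh]
      by_cases h : k ≤ n + 1
      · rw [if_pos h]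
        have e1 : 0 < aa k β (n + 1 - k) := by
          rcases Nat.lt_or_ge (n + 1 - k) n with h2 | h2
          · exact (ih _ h2).1
          · have : n + 1 - k = n := by omega
            rw [this]
            exact hpos
        refine ⟨e1.le, ?_⟩
        have e2 := iter (aa k β) (1 - κ) h1κ.le (n + 1 - k) (k - 1) (by
          intro i hi
          exact (ih (n + 1 - k + i) (by omega)).2.1)
        have e3 : n + 1 - k + (k - 1) = n := by omega
        rw [e3] at e2
        calc β * aa k β (n + 1 - k) ≤ κ * (1 - κ) ^ (k - 1) * aa k β (n + 1 - k) := by gcongr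
          _ = κ * ((1 - κ) ^ (k - 1) * aa k β (n + 1 - k)) := by ring
          _ ≤ κ * aa k β n := by gcongr
      · rw [if_neg h]
        refine ⟨le_rfl, ?_⟩
        rw [mul_zero]
        positivity
    refine ⟨hpos, ?_, ?_⟩
    · rw [hrec]
      linarith [hbound.2]
    · rw [hrec]
      have := mul_nonneg hβ.le hbound.1
      linarith

end AA_

open AA_ in
theorem p_AA : T_AA := by
  intro k β κ hk hβ hκ hκ1 hb
  have h1κ : 0 < 1 - κ := by linarith
  have hm := main k β κ hk hβ hκ hκ1 hb
  have hanti : Antitone (aa k β) := antitone_nat_of_succ_le (fun n => (hm n).2.2)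
  refine ⟨by rw [aa], rec_eq k β hk, fun n => (hm n).1, fun n => (hm n).2.2, ?_, ?_⟩
  · intro n j
    have h1 := iter (aa k β) (1 - κ) h1κ.le n j (fun i _ => (hm (n + i)).2.1)
    rw [inv_pow, inv_mul_eq_div, le_div_iff₀ (pow_pos h1κ j), mul_comm]
    exact h1
  · have hbdd : BddBelow (Set.range (aa k β)) := ⟨0, by
      rintro _ ⟨n, rfl⟩
      exact (hm n).1.le⟩
    have hlim := tendsto_atTop_ciInf hanti hbdd
    set l := ⨅ i, aa k β i with hl
    have h1 : Tendsto (fun m => aa k β (m + k + 1)) atTop (𝓝 l) := by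
      have e1 : Tendsto (fun m : ℕ => m + k + 1) atTop atTop :=
        tendsto_atTop_mono (fun m => by simp only [id]; omega) tendsto_id
      exact hlim.comp e1
    have h2 : Tendsto (fun m => aa k β (m + k) - β * aa k β (m + 1)) atTop (𝓝 (l - β * l)) := by
      have e1 : Tendsto (fun m : ℕ => m + k) atTop atTop :=
        tendsto_atTop_mono (fun m => by simp only [id]; omega) tendsto_id
      have e2 : Tendsto (fun m : ℕ => m + 1) atTop atTop :=
        tendsto_atTop_mono (fun m => by simp only [id]; omega) tendsto_id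
      exact (hlim.comp e1).sub ((hlim.comp e2).const_mul β)
    have h3 : (fun m => aa k β (m + k + 1)) = fun m => aa k β (m + k) - β * aa k β (m + 1) := by
      ext m
      rw [rec_eq k β hk (m + k), sh, if_pos (by omega)]
      congr 3
      omega
    rw [h3] at h1
    have h4 := tendsto_nhds_unique h1 h2
    have h5 : β * l = 0 := by linarith
    have h6 : l = 0 := by
      rcases mul_eq_zero.1 h5 with h | h
      · exact absurd h hβ.ne'
      · exact h
    rw [h6] at hlim
    exact hlim

end Pool.Agent.PKA
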