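import Pool.Agent.PKA.Targets

set_option autoImplicit false

/-!
# ADD: additivity of the pattern values
-/

open MeasureTheory ProbabilityTheory Filter Topology Finset

namespace Pool.Agent.PKA

private theorem aft_add (m : Mdl) {g g₁ g₂ : St → ℝ} (h : ∀ s, g s = g₁ s + g₂ s) (r : ℕ) :
    m.aft g r = m.aft g₁ r + m.aft g₂ r := by
  cases r with
  | zero => exact h _
  | succ r =>
    simp only [Mdl.aft, h, mul_add, sum_add_distrib]
    ring

private theorem step_add (m : Mdl) (c : Option Bool) {g g₁ g₂ : St → ℝ}
    (h : ∀ s, g s = g₁ s + g₂ s) (s : St) : m.step c g s = m.step c g₁ s + m.step c g₂ s := by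
  cases s with
  | S x =>
    simp only [Mdl.step, aft_add m h, h, mul_add, sum_add_distrib]
    ring
  | W d r =>
    cases d with
    | zero => simp only [Mdl.step, aft_add m h, mul_add]
    | succ d => simp only [Mdl.step, h, mul_add]
  | B d =>
    cases d with
    | zero =>
      simp only [Mdl.step, aft_add m h, h, mul_add, sum_add_distrib]
      ring
    | succ d => simp only [Mdl.step, h, mul_add]

private theorem ok1_none : ok1 none = 1 := by simp [ok1]
private theorem ok1_true : ok1 (some true) = 1 := by simp [ok1]
private theorem ok1_false : ok1 (some false) = 0 := by simp [ok1]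
private theorem ok0_none : ok0 none = 1 := by simp [ok0]
private theorem ok0_true : ok0 (some true) = 0 := by simp [ok0]
private theorem ok0_false : ok0 (some false) = 1 := by simp [ok0]

private theorem step_none (m : Mdl) (g : St → ℝ) (s : St) :
    m.step none g s = m.step (some true) g s + m.step (some false) g s := by
  cases s with
  | S x =>
    simp only [Mdl.step, ok1_none, ok1_true, ok1_false, ok0_none, ok0_true, ok0_false]
    ring
  | W d r =>
    cases d with
    | zero => simp only [Mdl.step, ok1_none, ok1_true, ok1_false, zero_mul, add_zero]
    | succ d => simp only [Mdl.step, ok0_none, ok0_true, ok0_false, zero_mul, zero_add]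
  | B d =>
    cases d with
    | zero =>
      simp only [Mdl.step, ok1_none, ok1_true, ok1_false, ok0_none, ok0_true, ok0_false]
      ring
    | succ d => simp only [Mdl.step, ok0_none, ok0_true, ok0_false, zero_mul, zero_add]

/-- ADD -/
theorem p_ADD : T_ADD := by
  intro m l₁ l₂
  induction l₁ with
  | nil =>
    intro s
    exact step_none m (m.val l₂) s
  | cons c l₁ ih =>
    intro s
    exact step_add m c ih s

end Pool.Agent.PKA
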