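import Pool.Agent.PKA.Targets

set_option autoImplicit false

/-!
# Basic properties of the model (MP_f1618c_pr)
-/

open MeasureTheory ProbabilityTheory Filter Topology Finset

namespace Pool.Agent.PKA

private theorem sh_nonneg {f : ℕ → ℝ} (hf : ∀ n, 0 ≤ f n) (d x : ℕ) : 0 ≤ sh f d x := by
  unfold sh
  split_ifs
  · exact hf _
  · exact le_rfl

private theorem sh_le {f : ℕ → ℝ} {t : ℝ} (ht : 0 ≤ t) (hf : ∀ n, 0 ≤ f n)
    (h : ∀ n j, f n ≤ t ^ j * f (n + j)) (d x : ℕ) : sh f d x ≤ t ^ d * f x := by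
  unfold sh
  split_ifs with hd
  · have := h (x - d) d
    rwa [Nat.sub_add_cancel hd] at this
  · exact mul_nonneg (pow_nonneg ht d) (hf x)

private theorem hasSum_sh {f : ℕ → ℝ} {c : ℝ} (hf : HasSum f c) (d : ℕ) : HasSum (sh f d) c := by
  rw [← hasSum_nat_add_iff' d]
  have h1 : ∑ i ∈ range d, sh f d i = 0 := by
    refine Finset.sum_eq_zero fun i hi => ?_
    unfold sh
    rw [if_neg (not_le.mpr (Finset.mem_range.mp hi))]
  have h2 : (fun n => sh f d (n + d)) = f := by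
    funext n
    unfold sh
    rw [if_pos (Nat.le_add_left d n), Nat.add_sub_cancel]
  rw [h1, h2, sub_zero]
  exact hf

private theorem hasSum_aa (h1 : T_AA) {k : ℕ} {β κ : ℝ} (hk : 1 ≤ k) (hβ : 0 < β) (hκ : 0 < κ)
    (hκ1 : κ < 1) (hle : β ≤ κ * (1 - κ) ^ (k - 1)) : HasSum (aa k β) β⁻¹ := by
  obtain ⟨a0, arec, apos, -, -, alim⟩ := h1 k β κ hk hβ hκ hκ1 hle
  -- the first values
  have hone : ∀ m, m + 1 ≤ k → aa k β m = 1 := by
    intro m
    induction m with
    | zero => intro _; exact a0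
    | succ m ih =>
      intro hm
      rw [arec, ih (by omega)]
      unfold sh
      rw [if_neg (by omega)]
      ring
  obtain ⟨j, rfl⟩ : ∃ j, k = j + 1 := ⟨k - 1, by omega⟩
  have hpart : ∀ n, ∑ i ∈ range n, aa (j + 1) β i = (1 - aa (j + 1) β (n + j)) / β := by
    intro n
    induction n with
    | zero =>
      rw [Finset.sum_range_zero, zero_add, hone j le_rfl, sub_self, zero_div]
    | succ n ih =>
      rw [Finset.sum_range_succ, ih]
      have e : n + 1 + j = (n + j) + 1 := by omega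
      rw [e, arec]
      unfold sh
      rw [if_pos (by omega)]
      have e2 : n + j + 1 - (j + 1) = n := by omega
      rw [e2]
      field_simp
      ring
  rw [hasSum_iff_tendsto_nat_of_nonneg (fun i => (apos i).le)]
  simp only [hpart]
  have h2 : Tendsto (fun n => aa (j + 1) β (n + j)) atTop (𝓝 0) :=
    alim.comp (tendsto_add_atTop_nat j)
  have h3 := (h2.const_sub 1).div_const β
  rw [sub_zero, one_div] at h3
  exact h3

theorem p_BAS (h0 : T_NU) (h1 : T_AA) : T_BAS := by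
  intro k H p β κ ρ hP
  have hk1 : 1 ≤ k := le_trans (by norm_num) hP.hk
  obtain ⟨a0, arec, apos, -, apow, -⟩ := h1 k β κ hk1 hP.β0 hP.κ0 hP.κ1 hP.hβ
  have hsum := hasSum_aa h1 hk1 hP.β0 hP.κ0 hP.κ1 hP.hβ
  have hκ : 0 < 1 - κ := by linarith [hP.κ1]
  have ht : 0 ≤ (1 - κ)⁻¹ := (inv_pos.mpr hκ).le
  have hapos : ∀ n, 0 ≤ aa k β n := fun n => (apos n).le
  have hsh : ∀ d x, sh (aa k β) d x ≤ ((1 - κ)⁻¹) ^ d * aa k β x := sh_le ht hapos apow
  have hsh0 : ∀ d x, 0 ≤ sh (aa k β) d x := sh_nonneg hapos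
  have hq0 : ∀ r, 0 ≤ qq p r := fun r => ((h0 p hP.p0 hP.p1 r).2.2.2.2.1).le
  have hq1 : ∀ r, qq p r ≤ 1 := fun r => (h0 p hP.p0 hP.p1 r).2.2.2.2.2.1
  have hpi : ∀ r s, 0 ≤ pp p r s := fun r => (h0 p hP.p0 hP.p1 r).2.2.2.2.2.2.2.1
  have hmass : ∀ r < H, qq p r + ∑ s ∈ Icc 1 (2 * H), pp p r s = 1 := by
    intro r hr
    obtain ⟨-, -, -, -, -, -, -, -, -, n10, n11, -, -⟩ := h0 p hP.p0 hP.p1 r
    rw [← n11]
    congr 1
    symm
    refine Finset.sum_subset ?_ ?_
    · exact Finset.Icc_subset_Icc_right (by omega)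
    · intro s hs hs'
      apply n10
      rw [Finset.mem_Icc] at hs hs'
      omega
  have hPI : ∀ s, 0 ≤ PI p H ρ s := fun s =>
    Finset.sum_nonneg fun r _ => mul_nonneg (hP.ρn _) (hpi r s)
  have he : ∀ x, ∀ r ≤ H, 0 ≤ ee k H p β ρ x r := by
    intro x r hr
    unfold ee
    rcases Nat.eq_zero_or_pos r with h | h
    · subst h
      rw [if_pos rfl]
      have h2 : qq p 0 * ρ (0 + 1) * sh (aa k β) (k + 1) x ≤
          qq p 0 * ρ (0 + 1) * (((1 - κ)⁻¹) ^ (k + 1) * aa k β x) :=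
        mul_le_mul_of_nonneg_left (hsh _ _) (mul_nonneg (hq0 0) (hP.ρn _))
      have h3 : ∑ s ∈ Icc 1 (2 * H), PI p H ρ s * sh (aa k β) (s * k) x ≤
          ∑ s ∈ Icc 1 (2 * H), PI p H ρ s * (((1 - κ)⁻¹) ^ (s * k) * aa k β x) :=
        Finset.sum_le_sum fun s _ => mul_le_mul_of_nonneg_left (hsh _ _) (hPI s)
      have h4 : ∑ s ∈ Icc 1 (2 * H), PI p H ρ s * (((1 - κ)⁻¹) ^ (s * k) * aa k β x) =
          (∑ s ∈ Icc 1 (2 * H), PI p H ρ s * ((1 - κ)⁻¹) ^ (s * k)) * aa k β x := by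
        rw [Finset.sum_mul]
        exact Finset.sum_congr rfl fun s _ => by ring
      have h5 := mul_le_mul_of_nonneg_right hP.dec0 (hapos x)
      rw [add_mul, ← h4] at h5
      have h6 : qq p 0 * ρ (0 + 1) * (((1 - κ)⁻¹) ^ (k + 1) * aa k β x) =
          qq p 0 * ρ 1 * ((1 - κ)⁻¹) ^ (k + 1) * aa k β x := by
        rw [zero_add]; ring
      linarith
    · rw [if_neg (by omega), sub_zero]
      have h2 : qq p r * ρ (r + 1) * sh (aa k β) (k + 1) x ≤
          1 * ((1 - κ) ^ (k + 1) * ρ r) * (((1 - κ)⁻¹) ^ (k + 1) * aa k β x) := by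
        apply mul_le_mul _ (hsh _ _) (hsh0 _ _)
        · have := hP.ρn r
          positivity
        · exact mul_le_mul (hq1 r) (hP.dec r h hr) (hP.ρn _) zero_le_one
      have h3 : 1 * ((1 - κ) ^ (k + 1) * ρ r) * (((1 - κ)⁻¹) ^ (k + 1) * aa k β x) =
          ρ r * aa k β x := by
        rw [inv_pow]
        field_simp
      linarith
  -- the total mass
  have htot : HasSum (fun x => ∑ r ∈ range (H + 1), ee k H p β ρ x r) 1 := by
    have hr : ∀ r ∈ range (H + 1), HasSum (fun x => ee k H p β ρ x r)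
        (ρ r * β⁻¹ - qq p r * ρ (r + 1) * β⁻¹ -
          if r = 0 then ∑ s ∈ Icc 1 (2 * H), PI p H ρ s * β⁻¹ else 0) := by
      intro r _
      unfold ee
      refine ((hsum.mul_left _).sub ((hasSum_sh hsum (k + 1)).mul_left _)).sub ?_
      split_ifs
      · exact hasSum_sum fun s _ => (hasSum_sh hsum (s * k)).mul_left _
      · exact hasSum_zero
    have h2 := hasSum_sum hr
    have h3 : ∑ r ∈ range (H + 1), (ρ r * β⁻¹ - qq p r * ρ (r + 1) * β⁻¹ -
        if r = 0 then ∑ s ∈ Icc 1 (2 * H), PI p H ρ s * β⁻¹ else 0) = 1 := by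
      rw [Finset.sum_sub_distrib, Finset.sum_sub_distrib, ← Finset.sum_mul, ← Finset.sum_mul,
        ← Finset.sum_mul, Finset.sum_ite_eq' (range (H + 1)) 0,
        if_pos (Finset.mem_range.mpr (Nat.succ_pos H)), ← sub_mul, ← sub_mul]
      have h4 : ∑ r ∈ range (H + 1), qq p r * ρ (r + 1) = ∑ r ∈ range H, qq p r * ρ (r + 1) := by
        rw [Finset.sum_range_succ, hP.ρH, mul_zero, add_zero]
      have h5 : ∑ s ∈ Icc 1 (2 * H), PI p H ρ s =
          ∑ r ∈ range H, ρ (r + 1) * ∑ s ∈ Icc 1 (2 * H), pp p r s := by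
        unfold PI
        rw [Finset.sum_comm]
        exact Finset.sum_congr rfl fun r _ => by rw [Finset.mul_sum]
      have h6 : ∑ r ∈ range H, ρ (r + 1) * ∑ s ∈ Icc 1 (2 * H), pp p r s =
          ∑ r ∈ range H, ρ (r + 1) - ∑ r ∈ range H, qq p r * ρ (r + 1) := by
        rw [← Finset.sum_sub_distrib]
        refine Finset.sum_congr rfl fun r hr => ?_
        have := hmass r (Finset.mem_range.mp hr)
        have e : ∑ s ∈ Icc 1 (2 * H), pp p r s = 1 - qq p r := by linarith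
        rw [e]
        ring
      have h7 : ∑ r ∈ range (H + 1), ρ r = ∑ r ∈ range H, ρ (r + 1) + ρ 0 := by
        rw [Finset.sum_range_succ']
      rw [h4, h5, h6, h7]
      have h8 : ∑ r ∈ range H, ρ (r + 1) + ρ 0 - ∑ r ∈ range H, qq p r * ρ (r + 1) -
          (∑ r ∈ range H, ρ (r + 1) - ∑ r ∈ range H, qq p r * ρ (r + 1)) = β := by
        rw [hP.ρ0]; ring
      rw [h8]
      exact mul_inv_cancel₀ hP.β0.ne'
    rw [h3] at h2
    exact h2
  refine ⟨hP.hk, fun r _ => hq0 r, fun r _ s => hpi r s, hmass, he, ?_, ?_, ?_⟩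
  · show 1 - ∑ y ∈ range 0, ∑ r ∈ range (H + 1), ee k H p β ρ y r = 1
    simp
  · intro x
    show 1 - ∑ y ∈ range (x + 1), ∑ r ∈ range (H + 1), ee k H p β ρ y r =
      1 - ∑ y ∈ range x, ∑ r ∈ range (H + 1), ee k H p β ρ y r -
        ∑ r ∈ range (H + 1), ee k H p β ρ x r
    rw [Finset.sum_range_succ]
    ring
  · intro x
    show 0 ≤ 1 - ∑ y ∈ range x, ∑ r ∈ range (H + 1), ee k H p β ρ y r
    have := sum_le_hasSum (range x) (fun y _ => Finset.sum_nonneg fun r hr =>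
      he y r (Nat.lt_succ_iff.mp (Finset.mem_range.mp hr))) htot
    linarith

end Pool.Agent.PKA
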