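import Pool.Agent.PKA.Targets

set_option autoImplicit false

/-!
# CONS: consistency and nonnegativity
-/

open MeasureTheory ProbabilityTheory Filter Topology Finset

namespace Pool.Agent.PKA

private theorem c_ok1_none : ok1 none = 1 := by simp [ok1]
private theorem c_ok0_none : ok0 none = 1 := by simp [ok0]

private theorem c_ok1_nonneg (c : Option Bool) : 0 ≤ ok1 c := by
  unfold ok1
  split_ifs <;> norm_num

private theorem c_ok0_nonneg (c : Option Bool) : 0 ≤ ok0 c := by
  unfold ok0
  split_ifs <;> norm_num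

private theorem c_aft_congr (m : Mdl) {g₁ g₂ : St → ℝ} (h : ∀ s, OkSt m s → g₁ s = g₂ s) (r : ℕ)
    (hr : r ≤ m.H) : m.aft g₁ r = m.aft g₂ r := by
  cases r with
  | zero => exact h _ trivial
  | succ r =>
    have h1 : g₁ (St.W m.k r) = g₂ (St.W m.k r) := h _ (by change r ≤ m.H; omega)
    have h2 : ∀ s, g₁ (St.W (s * m.k - 1) 0) = g₂ (St.W (s * m.k - 1) 0) :=
      fun s => h _ (Nat.zero_le _)
    simp only [Mdl.aft, h1, h2]

private theorem c_aft_nonneg (m : Mdl) (hm : Basic m) {g : St → ℝ} (h : ∀ s, OkSt m s → 0 ≤ g s)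
    (r : ℕ) (hr : r ≤ m.H) : 0 ≤ m.aft g r := by
  cases r with
  | zero => exact h _ trivial
  | succ r =>
    simp only [Mdl.aft]
    have h1 : 0 ≤ m.q r * g (St.W m.k r) :=
      mul_nonneg (hm.q0 r (by omega)) (h _ (by change r ≤ m.H; omega))
    have h2 : 0 ≤ ∑ s ∈ Icc 1 m.N, m.pi r s * g (St.W (s * m.k - 1) 0) :=
      sum_nonneg fun s _ => mul_nonneg (hm.pi0 r (by omega) s) (h _ (Nat.zero_le _))
    exact add_nonneg h1 h2

private theorem c_step_congr (m : Mdl) {g₁ g₂ : St → ℝ} (h : ∀ s, OkSt m s → g₁ s = g₂ s)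
    (c : Option Bool) (s : St) (hs : OkSt m s) : m.step c g₁ s = m.step c g₂ s := by
  have hsum : ∀ x, ∑ r ∈ range (m.H + 1), m.e x r * m.aft g₁ r =
      ∑ r ∈ range (m.H + 1), m.e x r * m.aft g₂ r := fun x =>
    sum_congr rfl fun r hr => by
      rw [c_aft_congr m h r (by rw [mem_range] at hr; omega)]
  cases s with
  | S x => simp only [Mdl.step, hsum, h (St.S (x + 1)) trivial]
  | W d r =>
    cases d with
    | zero => simp only [Mdl.step, c_aft_congr m h r hs]
    | succ d => simp only [Mdl.step, h (St.W d r) hs]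
  | B d =>
    cases d with
    | zero => simp only [Mdl.step, hsum, h (St.S 1) trivial]
    | succ d => simp only [Mdl.step, h (St.B d) trivial]

private theorem c_step_nonneg (m : Mdl) (hm : Basic m) {g : St → ℝ}
    (h : ∀ s, OkSt m s → 0 ≤ g s) (c : Option Bool) (s : St) (hs : OkSt m s) :
    0 ≤ m.step c g s := by
  have hsum : ∀ x, 0 ≤ ∑ r ∈ range (m.H + 1), m.e x r * m.aft g r := fun x =>
    sum_nonneg fun r hr => by
      rw [mem_range] at hr
      exact mul_nonneg (hm.e0 x r (by omega)) (c_aft_nonneg m hm h r (by omega))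
  cases s with
  | S x =>
    exact add_nonneg (mul_nonneg (c_ok1_nonneg c) (hsum x))
      (mul_nonneg (c_ok0_nonneg c) (h _ trivial))
  | W d r =>
    cases d with
    | zero => exact mul_nonneg (c_ok1_nonneg c) (c_aft_nonneg m hm h r hs)
    | succ d => exact mul_nonneg (c_ok0_nonneg c) (h _ hs)
  | B d =>
    cases d with
    | zero =>
      exact add_nonneg (mul_nonneg (c_ok1_nonneg c) (hsum 0))
        (mul_nonneg (c_ok0_nonneg c) (h _ trivial))
    | succ d => exact mul_nonneg (c_ok0_nonneg c) (h _ trivial)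

private theorem c_aft_base (m : Mdl) (hm : Basic m) (r : ℕ) (hr : r ≤ m.H) :
    m.aft m.base r = 1 := by
  cases r with
  | zero => rfl
  | succ r =>
    simp only [Mdl.aft, Mdl.base, mul_one]
    exact hm.mass r (by omega)

private theorem c_base_nonneg (m : Mdl) (hm : Basic m) (s : St) : 0 ≤ m.base s := by
  cases s with
  | S x => exact hm.En x
  | W d r => exact zero_le_one
  | B d => exact zero_le_one

private theorem c_one (m : Mdl) (hm : Basic m) (s : St) (hs : OkSt m s) :
    m.val [none] s = m.base s := by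
  have hsum : ∀ x, ∑ r ∈ range (m.H + 1), m.e x r * m.aft m.base r =
      ∑ r ∈ range (m.H + 1), m.e x r := fun x =>
    sum_congr rfl fun r hr => by
      rw [c_aft_base m hm r (by rw [mem_range] at hr; omega), mul_one]
  change m.step none m.base s = m.base s
  cases s with
  | S x =>
    simp only [Mdl.step, hsum, c_ok1_none, c_ok0_none, Mdl.base]
    rw [hm.Es x]
    ring
  | W d r =>
    cases d with
    | zero =>
      simp only [Mdl.step, c_aft_base m hm r hs, c_ok1_none, Mdl.base, mul_one]
    | succ d => simp only [Mdl.step, c_ok0_none, Mdl.base, mul_one]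
  | B d =>
    cases d with
    | zero =>
      simp only [Mdl.step, hsum, c_ok1_none, c_ok0_none, Mdl.base]
      have h1 := hm.Es 0
      rw [zero_add, hm.E0] at h1
      rw [h1]
      ring
    | succ d => simp only [Mdl.step, c_ok0_none, Mdl.base, mul_one]

theorem p_CONS : T_CONS := by
  intro m hm
  refine ⟨c_aft_base m hm, ?_, ?_⟩
  · intro l
    induction l with
    | nil =>
      intro s hs
      exact c_one m hm s hs
    | cons c l ih =>
      intro s hs
      change m.step c (m.val (l ++ [none])) s = m.step c (m.val l) s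
      exact c_step_congr m ih c s hs
  · intro l
    induction l with
    | nil =>
      intro s _
      exact c_base_nonneg m hm s
    | cons c l ih =>
      intro s hs
      change 0 ≤ m.step c (m.val l) s
      exact c_step_nonneg m hm ih c s hs

end Pool.Agent.PKA
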