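import Pool.Agent.PKA.Targets

set_option autoImplicit false

/-!
# CPL: the coupling from the pattern values
-/

open MeasureTheory ProbabilityTheory Filter Topology Finset

namespace Pool.Agent.PKA

/-- the cylinder of a pattern which starts at time `n` -/
private def cy (n : ℕ) (l : List (Option Bool)) : Set (ℕ → Bool) :=
  {z | ∀ i b, l[i]? = some (some b) → z (n + i) = b}

private theorem cy_nil (n : ℕ) : cy n [] = Set.univ := by
  ext z; simp [cy]

private theorem cy_cons (n : ℕ) (c : Option Bool) (l : List (Option Bool)) :
    cy n (c :: l) = {z | ∀ b, c = some b → z n = b} ∩ cy (n + 1) l := by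
  ext z
  simp only [cy, Set.mem_ofPred_eq, Set.mem_inter_iff]
  constructor
  · intro h
    refine ⟨fun b hb => ?_, fun i b hib => ?_⟩
    · have := h 0 b (by simp [hb])
      simpa using this
    · have := h (i + 1) b (by simpa using hib)
      rw [← this]; congr 1; omega
  · rintro ⟨h1, h2⟩ i b hib
    cases i with
    | zero =>
      have : c = some b := by simpa using hib
      simpa using h1 b this
    | succ i =>
      have := h2 i b (by simpa using hib)
      rw [← this]; congr 1; omega

private theorem cy_cons_none (n : ℕ) (l : List (Option Bool)) :
    cy n (none :: l) = cy (n + 1) l := by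
  rw [cy_cons]
  ext z
  simp

private theorem cy_cons_some (n : ℕ) (b : Bool) (l : List (Option Bool)) :
    cy n (some b :: l) = {z | z n = b} ∩ cy (n + 1) l := by
  rw [cy_cons]
  ext z
  simp

private theorem cy_rep (j n : ℕ) (l : List (Option Bool)) :
    cy n (List.replicate j none ++ l) = cy (n + j) l := by
  induction j generalizing n with
  | zero => simp
  | succ j ih =>
    rw [List.replicate_succ, List.cons_append, cy_cons_none, ih]
    congr 1; omega

private theorem cy_meas (n : ℕ) (l : List (Option Bool)) : MeasurableSet (cy n l) := by
  induction l generalizing n with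
  | nil => rw [cy_nil]; exact MeasurableSet.univ
  | cons c l ih =>
    cases c with
    | none => rw [cy_cons_none]; exact ih _
    | some b =>
      rw [cy_cons_some]
      refine MeasurableSet.inter ?_ (ih _)
      exact measurableSet_eq_fun (measurable_pi_apply n) measurable_const

private theorem cy_split (n : ℕ) (l₁ l₂ : List (Option Bool)) (b : Bool) :
    cy n (l₁ ++ some b :: l₂) = cy n (l₁ ++ none :: l₂) ∩ {z | z (n + l₁.length) = b} := by
  induction l₁ generalizing n with
  | nil =>
    rw [List.nil_append, List.nil_append, cy_cons_some, cy_cons_none, Set.inter_comm]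
    simp
  | cons c l ih =>
    rw [List.cons_append, List.cons_append, cy_cons, cy_cons, ih, Set.inter_assoc]
    have : n + 1 + l.length = n + (c :: l).length := by simp; omega
    rw [this]

private theorem cy_spread (k : ℕ) (hk : 1 ≤ k) (n : ℕ) (a : List (Option Bool)) :
    cy n (spread k a) = {z | ∀ t b, a[t]? = some (some b) → z (n + t * k) = b} := by
  induction a generalizing n with
  | nil => rw [spread, cy_nil]; ext z; simp
  | cons c a ih =>
    rw [spread, cy_cons, cy_rep, ih]
    ext z
    simp only [Set.mem_inter_iff, Set.mem_ofPred_eq]
    constructor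
    · rintro ⟨h1, h2⟩ t b htb
      cases t with
      | zero =>
        have : c = some b := by simpa using htb
        simpa using h1 b this
      | succ t =>
        have := h2 t b (by simpa using htb)
        rw [← this]; congr 1
        have : (t + 1) * k = t * k + k := by ring
        omega
    · intro h
      refine ⟨fun b hb => ?_, fun t b htb => ?_⟩
      · have := h 0 b (by simp [hb])
        simpa using this
      · have := h (t + 1) b (by simpa using htb)
        rw [← this]; congr 1
        have : (t + 1) * k = t * k + k := by ring
        omega

private theorem bool_gen :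
    (MeasurableSpace.generateFrom {({true} : Set Bool)}) = (⊤ : MeasurableSpace Bool) := by
  apply le_antisymm le_top
  intro s _
  have ht : MeasurableSet[MeasurableSpace.generateFrom {({true} : Set Bool)}] {true} :=
    MeasurableSpace.measurableSet_generateFrom (Set.mem_singleton _)
  by_cases h1 : true ∈ s <;> by_cases h2 : false ∈ s
  · have : s = Set.univ := by ext b; cases b <;> simp [h1, h2]
    rw [this]
    exact @MeasurableSet.univ _ (MeasurableSpace.generateFrom {({true} : Set Bool)})
  · have : s = {true} := by ext b; cases b <;> simp [h1, h2]
    rw [this]; exact ht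
  · have : s = {true}ᶜ := by ext b; cases b <;> simp [h1, h2]
    rw [this]
    exact @MeasurableSet.compl _ _ (MeasurableSpace.generateFrom {({true} : Set Bool)}) ht
  · have : s = ∅ := by ext b; cases b <;> simp [h1, h2]
    rw [this]
    exact @MeasurableSet.empty _ (MeasurableSpace.generateFrom {({true} : Set Bool)})

private theorem list_prod_range (f : ℕ → ℝ) (n : ℕ) :
    ((List.range n).map f).prod = ∏ t ∈ Finset.range n, f t := by
  induction n with
  | zero => simp
  | succ n ih => rw [List.range_succ, List.map_append, List.prod_append, ih,
      Finset.prod_range_succ]; simp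

/-- the coupling -/
theorem p_CPL (h0 : T_ADD) (h1 : T_CONS) (h2 : T_GAP) (h3 : T_MEAS) : T_CPL := by
  intro m p hm hp0 hp1 hlab
  obtain ⟨-, hcons, hnn⟩ := h1 m hm
  have hok : OkSt m (St.S 0) := trivial
  have hval0 : m.val [] (St.S 0) = 1 := by
    show m.base (St.S 0) = 1
    exact hm.E0
  obtain ⟨μ, hμ, hcyl⟩ := h3 (fun l => m.val (l.map some) (St.S 0))
    (fun l => hnn _ _ hok) hval0 (by
      intro l
      have e1 := h0 m (l.map some) [] (St.S 0)
      have e2 := hcons (l.map some) (St.S 0) hok
      rw [e2] at e1
      simpa using e1)
  -- the measure of a cylinder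
  have key : ∀ (l₂ : List (Option Bool)) (l₁ : List Bool),
      μ (cy 0 (l₁.map some ++ l₂)) = ENNReal.ofReal (m.val (l₁.map some ++ l₂) (St.S 0)) := by
    intro l₂
    induction l₂ with
    | nil =>
      intro l₁
      rw [List.append_nil, ← hcyl l₁]
      congr 1
      ext z
      simp only [cy, Set.mem_ofPred_eq]
      constructor
      · intro h i hi
        have := h i l₁[i] (by simp [hi])
        simpa using this
      · intro h i b hib
        rw [List.getElem?_map] at hib
        obtain ⟨b', hb', hbb⟩ := Option.map_eq_some_iff.1 hib
        obtain ⟨hi, hib'⟩ := List.getElem?_eq_some_iff.1 hb'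
        have e := h i hi
        rw [zero_add, e, hib']
        exact Option.some_injective _ hbb
    | cons c l₂ ih =>
      intro l₁
      have hs : ∀ b : Bool, l₁.map some ++ some b :: l₂ = (l₁ ++ [b]).map some ++ l₂ := by
        intro b; simp
      cases c with
      | some b =>
        rw [hs b]
        exact ih _
      | none =>
        have et := ih (l₁ ++ [true])
        have ef := ih (l₁ ++ [false])
        rw [← hs true] at et
        rw [← hs false] at ef
        have hadd := h0 m (l₁.map some) l₂ (St.S 0)
        rw [hadd, ENNReal.ofReal_add (hnn _ _ hok) (hnn _ _ hok), ← et, ← ef,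
          cy_split, cy_split]
        have hms : MeasurableSet {z : ℕ → Bool | z (0 + (l₁.map some).length) = true} :=
          measurableSet_eq_fun (measurable_pi_apply _) measurable_const
        rw [← measure_inter_add_sdiff (cy 0 (l₁.map some ++ none :: l₂)) hms]
        congr 2
        ext z
        simp only [Set.mem_sdiff, Set.mem_inter_iff, Set.mem_ofPred_eq, Bool.not_eq_true]
  have key' : ∀ l : List (Option Bool), μ (cy 0 l) = ENNReal.ofReal (m.val l (St.S 0)) := by
    intro l
    have := key l []
    simpa using this
  have hk1 : 1 ≤ m.k := le_trans (by norm_num) hm.hk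
  -- the events of one walker
  have hev : ∀ (j : ℕ) (a : List (Option Bool)),
      μ {z | ∀ t b, a[t]? = some (some b) → z (t * m.k + j) = b} = ENNReal.ofReal (wt p a) := by
    intro j a
    rw [← hlab a j, ← key', cy_rep, zero_add, cy_spread m.k hk1]
    congr 1
    ext z
    simp only [Set.mem_ofPred_eq]
    constructor
    · intro h t b htb
      rw [add_comm]; exact h t b htb
    · intro h t b htb
      rw [add_comm]; exact h t b htb
  have hones : ∀ (j : ℕ) (S : Finset ℕ),
      μ (⋂ t ∈ S, {z | z (t * m.k + j) = true}) = ENNReal.ofReal (p ^ S.card) := by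
    intro j S
    obtain ⟨n, hn⟩ : ∃ n, ∀ t ∈ S, t < n := ⟨S.sup id + 1, fun t ht =>
      Nat.lt_succ_of_le (Finset.le_sup (f := id) ht)⟩
    have e1 := hev j ((List.range n).map (fun t => if t ∈ S then some true else none))
    have e2 : wt p ((List.range n).map (fun t => if t ∈ S then some true else none)) =
        p ^ S.card := by
      unfold wt
      rw [List.map_map]
      have : (List.map (bw p ∘ fun t => if t ∈ S then some true else none)
          (List.range n)).prod = ∏ t ∈ Finset.range n, (if t ∈ S then p else 1) := by
        rw [list_prod_range]
        refine Finset.prod_congr rfl (fun t _ => ?_)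
        by_cases h : t ∈ S <;> simp [h, bw]
      rw [this]
      rw [Finset.prod_ite, Finset.prod_const_one, mul_one, Finset.prod_const]
      congr 2
      ext t
      simp only [Finset.mem_filter, Finset.mem_range]
      exact ⟨fun h => h.2, fun h => ⟨hn t h, h⟩⟩
    rw [← e2, ← e1]
    congr 1
    ext z
    simp only [Set.mem_iInter, Set.mem_ofPred_eq]
    constructor
    · intro h t b htb
      rw [List.getElem?_map] at htb
      obtain ⟨t', ht', hb⟩ := Option.map_eq_some_iff.1 htb
      obtain ⟨hi, hit⟩ := List.getElem?_eq_some_iff.1 ht'
      have htt : t' = t := by rw [← hit]; simp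
      subst htt
      by_cases hS : t' ∈ S
      · rw [if_pos hS] at hb
        have : true = b := Option.some_injective _ hb
        rw [← this]; exact h t' hS
      · rw [if_neg hS] at hb
        simp at hb
    · intro h t ht
      apply h t true
      rw [List.getElem?_map, List.getElem?_range (hn t ht)]
      simp [ht]
  have hone : ∀ j t : ℕ, μ {z | z (t * m.k + j) = true} = ENNReal.ofReal p := by
    intro j t
    have := hones j {t}
    simpa using this
  -- two close ones
  have hgap : ∀ u v : ℕ, u < v → v < u + m.k → μ {z | z u = true ∧ z v = true} = 0 := by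
    intro u v huv hvk
    have e := key' (List.replicate u none ++ some true ::
      (List.replicate (v - u - 1) none ++ some true :: []))
    rw [h2 m (List.replicate u none) (List.replicate (v - u - 1) none) [] (St.S 0)
      (by rw [List.length_replicate]; omega)] at e
    rw [ENNReal.ofReal_zero] at e
    rw [← e]
    congr 1
    rw [cy_rep, cy_cons_some, cy_rep, cy_cons_some, cy_nil]
    ext z
    have : 0 + u + 1 + (v - u - 1) = v := by omega
    rw [this]
    simp
  refine ⟨ℕ → Bool, inferInstance, μ, fun j t z => z (t * m.k + j), hμ, ?_, ?_, ?_, ?_⟩
  · intro j t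
    exact measurable_pi_apply _
  · intro j
    rw [iIndepFun_iff_iIndep]
    have hm1 : (fun t : ℕ => MeasurableSpace.comap
        (fun z : ℕ → Bool => z (t * m.k + (j : ℕ))) (inferInstance : MeasurableSpace Bool)) =
        fun t => MeasurableSpace.generateFrom {{z : ℕ → Bool | z (t * m.k + (j : ℕ)) = true}} := by
      funext t
      have hb : (inferInstance : MeasurableSpace Bool) =
          MeasurableSpace.generateFrom {({true} : Set Bool)} := by
        rw [bool_gen]; rfl
      rw [hb, MeasurableSpace.comap_generateFrom, Set.image_singleton]
      rfl
    have : iIndep (fun t : ℕ => MeasurableSpace.generateFrom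
        {{z : ℕ → Bool | z (t * m.k + (j : ℕ)) = true}}) μ := by
      have h := (iIndepSet_iff_meas_biInter (μ := μ)
        (f := fun t : ℕ => {z : ℕ → Bool | z (t * m.k + (j : ℕ)) = true})
        (fun t => measurableSet_eq_fun (measurable_pi_apply _) measurable_const)).2 (by
          intro S
          rw [hones j S, Finset.prod_congr rfl (fun t _ => hone j t), Finset.prod_const,
            ENNReal.ofReal_pow hp0])
      exact (iIndepSet_iff_iIndep _ _).1 h
    rw [← hm1] at this
    exact this
  · intro j t
    exact hone j t
  · have : ∀ᵐ z ∂μ, ∀ u v : ℕ, u < v → v < u + m.k → ¬ (z u = true ∧ z v = true) := by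
      rw [ae_all_iff]; intro u
      rw [ae_all_iff]; intro v
      by_cases h : u < v ∧ v < u + m.k
      · have h0 := hgap u v h.1 h.2
        rw [ae_iff]
        refine measure_mono_null ?_ h0
        intro z hz
        simp only [Set.mem_ofPred_eq] at hz ⊢
        by_contra hcon
        exact hz (fun _ _ => hcon)
      · refine Filter.Eventually.of_forall (fun z h1 h2 => ?_)
        exact absurd ⟨h1, h2⟩ h
    filter_upwards [this] with z hz i j s t h1 h2
    exact hz _ _ h1 (by omega)

end Pool.Agent.PKA
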