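import Mathlib

set_option autoImplicit false

/-!
# 1-avoidance couplings of Bernoulli walkers (MP_f1618c_pr): definitions
-/

open MeasureTheory ProbabilityTheory Filter Topology Finset

namespace Pool.Agent.PKA

/-! ## The problem -/

/-- `X` is a 1-avoidance coupling of `k` Bernoulli(`p`) walkers on the probability space
`(Ω, P)`. The walkers are numbered `0, ..., k - 1`; the position which walker `j` takes at time `t`
is taken at turn `t * k + j`. The last condition says that every block of `k` consecutive turns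
contains at most one `1` (`true`). -/
structure IsCoupling {Ω : Type} [MeasurableSpace Ω] (P : Measure Ω) (k : ℕ) (p : ℝ)
    (X : Fin k → ℕ → Ω → Bool) : Prop where
  prob : IsProbabilityMeasure P
  meas : ∀ j t, Measurable (X j t)
  indep : ∀ j, iIndepFun (X j) P
  law : ∀ j t, P {ω | X j t ω = true} = ENNReal.ofReal p
  avoid : ∀ᵐ ω ∂P, ∀ (i j : Fin k) (s t : ℕ), s * k + i < t * k + j → t * k + j < s * k + i + k →
    ¬ (X i s ω = true ∧ X j t ω = true)

/-- There is a 1-avoidance coupling of `k` Bernoulli(`p`) walkers. -/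
def Coupled (k : ℕ) (p : ℝ) : Prop :=
  ∃ (Ω : Type) (_ : MeasurableSpace Ω) (P : Measure Ω) (X : Fin k → ℕ → Ω → Bool),
    IsCoupling P k p X

/-- The supremum of all `p` for which a 1-avoidance coupling exists. -/
noncomputable def pk (k : ℕ) : ℝ := sSup {p : ℝ | 0 ≤ p ∧ p ≤ 1 ∧ Coupled k p}

/-! ## Patterns -/

/-- Weight of an optional bit for a Bernoulli(`p`) variable. -/
def bw (p : ℝ) : Option Bool → ℝ
  | none => 1
  | some true => p
  | some false => 1 - p

/-- Probability of a pattern for i.i.d. Bernoulli(`p`) variables. -/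
def wt (p : ℝ) (a : List (Option Bool)) : ℝ := (a.map (bw p)).prod

/-- `1` if the optional bit is compatible with a one. -/
def ok1 (c : Option Bool) : ℝ := if c = some false then 0 else 1

/-- `1` if the optional bit is compatible with a zero. -/
def ok0 (c : Option Bool) : ℝ := if c = some true then 0 else 1

/-- The first `c` entries of the pattern are forced to be zero, the rest is i.i.d. -/
def zw (p : ℝ) : ℕ → List (Option Bool) → ℝ
  | 0, a => wt p a
  | _ + 1, [] => 1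
  | c + 1, x :: a => ok0 x * zw p c a

/-- The first one is at position `s` (`s ≥ 1`), the rest is i.i.d. (`s = 0` is a dummy value.) -/
def os (p : ℝ) : ℕ → List (Option Bool) → ℝ
  | 0, _ => 0
  | _ + 1, [] => 1
  | 1, x :: a => ok1 x * wt p a
  | s + 2, x :: a => ok0 x * os p (s + 1) a

/-- The entries of `a` are put at distance `k`. -/
def spread (k : ℕ) : List (Option Bool) → List (Option Bool)
  | [] => []
  | c :: a => c :: (List.replicate (k - 1) none ++ spread k a)

/-! ## The hidden Markov model -/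

/-- States. `S x`: fresh process, no one during the first `x` turns. `W d r`: after `d` zeros there
is a one in state `r`. `B d`: after `d` zeros there is a fresh process. -/
inductive St : Type
  | S (x : ℕ)
  | W (d r : ℕ)
  | B (d : ℕ)

/-- Parameters: `q r`, `pi r s` belong to state `r + 1`. -/
structure Mdl : Type where
  k : ℕ
  H : ℕ
  N : ℕ
  q : ℕ → ℝ
  pi : ℕ → ℕ → ℝ
  nu : ℕ → ℕ → ℝ
  e : ℕ → ℕ → ℝ
  E : ℕ → ℝ

namespace Mdl

variable (m : Mdl)

/-- Expectation of `g` at the turn after a one in state `r`. -/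
noncomputable def aft (g : St → ℝ) : ℕ → ℝ
  | 0 => g (St.B (m.k - 1))
  | r + 1 => m.q r * g (St.W m.k r) + ∑ s ∈ Icc 1 m.N, m.pi r s * g (St.W (s * m.k - 1) 0)

/-- Total mass (the states `S x` are not normalised). -/
noncomputable def base : St → ℝ
  | St.S x => m.E x
  | _ => 1

/-- One step; `c` restricts the present value. -/
noncomputable def step (c : Option Bool) (g : St → ℝ) : St → ℝ
  | St.S x => ok1 c * ∑ r ∈ range (m.H + 1), m.e x r * m.aft g r + ok0 c * g (St.S (x + 1))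
  | St.W 0 r => ok1 c * m.aft g r
  | St.W (d + 1) r => ok0 c * g (St.W d r)
  | St.B 0 => ok1 c * ∑ r ∈ range (m.H + 1), m.e 0 r * m.aft g r + ok0 c * g (St.S 1)
  | St.B (d + 1) => ok0 c * g (St.B d)

/-- Probability of a pattern, started in a state. -/
noncomputable def val (l : List (Option Bool)) : St → ℝ := l.foldr m.step m.base

end Mdl

/-- Basic conditions on the parameters. -/
structure Basic (m : Mdl) : Prop where
  hk : 2 ≤ m.k
  q0 : ∀ r < m.H, 0 ≤ m.q r
  pi0 : ∀ r < m.H, ∀ s, 0 ≤ m.pi r s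
  mass : ∀ r < m.H, m.q r + ∑ s ∈ Icc 1 m.N, m.pi r s = 1
  e0 : ∀ x, ∀ r ≤ m.H, 0 ≤ m.e x r
  E0 : m.E 0 = 1
  Es : ∀ x, m.E (x + 1) = m.E x - ∑ r ∈ range (m.H + 1), m.e x r
  En : ∀ x, 0 ≤ m.E x

/-- Conditions which make the sequence of each walker i.i.d. -/
structure Law (m : Mdl) (p : ℝ) : Prop where
  hH : m.H + 1 ≤ m.k
  uni : ∀ j, m.val (List.replicate j none ++ [some true]) (St.S 0) = p
  nu0 : ∀ c, m.nu 0 c = if c = 1 then 1 else 0
  nuz : ∀ r < m.H, m.nu (r + 1) 0 = 0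
  nus : ∀ r < m.H, ∀ c, m.nu (r + 1) (c + 1) = m.q r * m.nu r c + m.pi r c
  pz : ∀ r < m.H, m.pi r 0 = 0
  nuN : ∀ r < m.H, m.nu r (m.N + 1) = 0
  own : ∀ r < m.H, ∀ a : List (Option Bool), wt p a =
    ∑ s ∈ Icc 1 m.N, m.pi r s * os p s a + m.q r * ∑ c ∈ range (m.N + 2), m.nu r c * zw p (c + 1) a

/-! ## The parameters -/

/-- `q` for the next state, from the law `ν` (supported in `range n`) of the present state. -/
noncomputable def qOf (p : ℝ) (ν : ℕ → ℝ) (n : ℕ) : ℝ :=
  (1 - p) / ∑ c ∈ range n, ν c * ((1 - p)⁻¹) ^ c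

/-- `π` for the next state. -/
noncomputable def piOf (p : ℝ) (ν : ℕ → ℝ) (n s : ℕ) : ℝ :=
  if s = 0 then 0
  else qOf p ν n * p * ∑ c ∈ range n, if s < c + 2 then ν c * ((1 - p)⁻¹) ^ (c + 2 - s) else 0

/-- The law of the number of forced zeros in state `r`. -/
noncomputable def nu (p : ℝ) : ℕ → ℕ → ℝ
  | 0 => fun c => if c = 1 then 1 else 0
  | r + 1 => fun c => match c with
    | 0 => 0
    | c + 1 => qOf p (nu p r) (2 * r + 2) * nu p r c + piOf p (nu p r) (2 * r + 2) c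

/-- `q` as a function of the state. -/
noncomputable def qq (p : ℝ) (r : ℕ) : ℝ := qOf p (nu p r) (2 * r + 2)

/-- `π` as a function of the state. -/
noncomputable def pp (p : ℝ) (r s : ℕ) : ℝ := piOf p (nu p r) (2 * r + 2) s

/-- The coefficients of `1 / (1 - z + β z ^ k)` (for `k ≥ 1`). -/
noncomputable def aa (k : ℕ) (β : ℝ) : ℕ → ℝ
  | 0 => 1
  | n + 1 => aa k β n - (if h : k ≤ n + 1 ∧ 1 ≤ k then β * aa k β (n + 1 - k) else 0)
termination_by n => n

/-- Shifted sequence. -/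
def sh (f : ℕ → ℝ) (d x : ℕ) : ℝ := if d ≤ x then f (x - d) else 0

/-- Total rate of the jumps of length `s k`. -/
noncomputable def PI (p : ℝ) (H : ℕ) (ρ : ℕ → ℝ) (s : ℕ) : ℝ :=
  ∑ r ∈ range H, ρ (r + 1) * pp p r s

/-- The law of the first one of the fresh process. -/
noncomputable def ee (k H : ℕ) (p β : ℝ) (ρ : ℕ → ℝ) (x r : ℕ) : ℝ :=
  ρ r * aa k β x - qq p r * ρ (r + 1) * sh (aa k β) (k + 1) x -
    if r = 0 then ∑ s ∈ Icc 1 (2 * H), PI p H ρ s * sh (aa k β) (s * k) x else 0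

/-- The model. -/
noncomputable def mdl (k H : ℕ) (p β : ℝ) (ρ : ℕ → ℝ) : Mdl where
  k := k
  H := H
  N := 2 * H
  q := qq p
  pi := pp p
  nu := nu p
  e := ee k H p β ρ
  E := fun x => 1 - ∑ y ∈ range x, ∑ r ∈ range (H + 1), ee k H p β ρ y r

/-- Admissible parameters. -/
structure Par (k H : ℕ) (p β κ : ℝ) (ρ : ℕ → ℝ) : Prop where
  hk : 2 ≤ k
  hH : H + 1 ≤ k
  p0 : 0 < p
  p1 : p < 1
  κ0 : 0 < κ
  κ1 : κ < 1
  β0 : 0 < β
  hβ : β ≤ κ * (1 - κ) ^ (k - 1)
  ρ0 : ρ 0 = β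
  ρn : ∀ r, 0 ≤ ρ r
  ρH : ρ (H + 1) = 0
  sum : ∑ r ∈ range (H + 1), ρ r = p
  dec : ∀ r, 1 ≤ r → r ≤ H → ρ (r + 1) ≤ (1 - κ) ^ (k + 1) * ρ r
  dec0 : qq p 0 * ρ 1 * ((1 - κ)⁻¹) ^ (k + 1) +
    ∑ s ∈ Icc 1 (2 * H), PI p H ρ s * ((1 - κ)⁻¹) ^ (s * k) ≤ ρ 0

end Pool.Agent.PKA
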