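import Pool.Agent.PKA.Targets

set_option autoImplicit false

/-!
# 1-avoidance couplings of Bernoulli walkers (MP_f1618c_pr): existence of parameters
-/

open MeasureTheory ProbabilityTheory Filter Topology Finset

namespace Pool.Agent.PKA

/-- The parameters. -/
private noncomputable def rr (H : ℕ) (β c θ : ℝ) (r : ℕ) : ℝ :=
  if r = 0 then β else if r ≤ H then c * β * θ ^ r else 0

private lemma mkPar (h0 : T_NU) (k H : ℕ) (p β κ c θ : ℝ) (hk : 2 ≤ k) (hH : H + 1 ≤ k)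
    (p0 : 0 < p) (p1 : p < 1) (κ0 : 0 < κ) (κ1 : κ < 1) (hθ : θ = (1 - κ) ^ (k + 1))
    (hc : c = 1 - 2 * (H : ℝ) ^ 2 * p * ((1 - κ)⁻¹) ^ (2 * H * k)) (hc0 : 0 ≤ c)
    (hβ1 : β = p / (1 + c * ∑ r ∈ range H, θ ^ (r + 1)))
    (hβ : β ≤ κ * (1 - κ) ^ (k - 1)) : Par k H p β κ (rr H β c θ) := by
  have hy : 0 < 1 - κ := by linarith
  have hy1 : 1 - κ ≤ 1 := by linarith
  have hθ0 : 0 < θ := by rw [hθ]; positivity
  have hθ1 : θ ≤ 1 := by rw [hθ]; exact pow_le_one₀ hy.le hy1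
  have ht1 : 1 ≤ (1 - κ)⁻¹ := (one_le_inv₀ hy).2 hy1
  have hc1 : c ≤ 1 := by
    have : 0 ≤ 2 * (H : ℝ) ^ 2 * p * ((1 - κ)⁻¹) ^ (2 * H * k) := by positivity
    linarith
  have hS : 0 < 1 + c * ∑ r ∈ range H, θ ^ (r + 1) := by positivity
  have hβ0 : 0 < β := by rw [hβ1]; positivity
  have hβS : β * (1 + c * ∑ r ∈ range H, θ ^ (r + 1)) = p := by
    rw [hβ1]; field_simp
  have hρn : ∀ r, 0 ≤ rr H β c θ r := by
    intro r
    unfold rr
    split_ifs
    · exact hβ0.le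
    · positivity
    · exact le_rfl
  have hρle : ∀ r, rr H β c θ r ≤ β := by
    intro r
    unfold rr
    split_ifs
    · exact le_rfl
    · have h1 : θ ^ r ≤ 1 := pow_le_one₀ hθ0.le hθ1
      have h2 : c * θ ^ r ≤ 1 := mul_le_one₀ hc1 (by positivity) h1
      calc c * β * θ ^ r = (c * θ ^ r) * β := by ring
        _ ≤ 1 * β := mul_le_mul_of_nonneg_right h2 hβ0.le
        _ = β := one_mul _
    · exact hβ0.le
  have hρs : ∀ r, r < H → rr H β c θ (r + 1) = c * β * θ ^ (r + 1) := by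
    intro r hr
    unfold rr
    rw [if_neg (by omega), if_pos (by omega)]
  have hρ1 : rr H β c θ 1 * ((1 - κ)⁻¹) ^ (k + 1) ≤ c * β := by
    unfold rr
    rw [if_neg (by omega)]
    split_ifs with h
    · rw [inv_pow, ← hθ, pow_one, mul_assoc, mul_inv_cancel₀ hθ0.ne', mul_one]
    · rw [zero_mul]; positivity
  refine ⟨hk, hH, p0, p1, κ0, κ1, hβ0, hβ, rfl, hρn, ?_, ?_, ?_, ?_⟩
  · unfold rr
    rw [if_neg (by omega), if_neg (by omega)]
  · rw [Finset.sum_range_succ']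
    have h1 : rr H β c θ 0 = β := rfl
    rw [h1, Finset.sum_congr rfl (fun r hr => hρs r (Finset.mem_range.1 hr)), ← Finset.mul_sum,
      ← hβS]
    ring
  · intro r hr1 hrH
    rcases Nat.lt_or_ge r H with h | h
    · rw [hρs r h, ← hθ]
      have h1 : rr H β c θ r = c * β * θ ^ r := by
        unfold rr
        rw [if_neg (by omega), if_pos hrH]
      rw [h1, pow_succ]
      exact le_of_eq (by ring)
    · have h1 : rr H β c θ (r + 1) = 0 := by
        unfold rr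
        rw [if_neg (by omega), if_neg (by omega)]
      rw [h1]
      exact mul_nonneg (by positivity) (hρn r)
  · have hnu := h0 p p0 p1
    have hpp : ∀ r s, 0 ≤ pp p r s := fun r s => (hnu r).2.2.2.2.2.2.2.1 s
    have hq1 : qq p 0 ≤ 1 := (hnu 0).2.2.2.2.2.1
    have hq0 : 0 < qq p 0 := (hnu 0).2.2.2.2.1
    have hPI0 : ∀ s, 0 ≤ PI p H (rr H β c θ) s := fun s =>
      Finset.sum_nonneg fun r _ => mul_nonneg (hρn _) (hpp r s)
    have hsumpp : ∀ r, r < H → ∑ s ∈ Icc 1 (2 * H), pp p r s ≤ 2 * H * p := by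
      intro r hr
      have h1 : ∑ s ∈ Icc 1 (2 * H), pp p r s = ∑ s ∈ Icc 1 (2 * r + 2), pp p r s := by
        symm
        refine Finset.sum_subset (Finset.Icc_subset_Icc_right (by omega)) ?_
        intro s hs hs'
        rw [Finset.mem_Icc] at hs hs'
        exact (hnu r).2.2.2.2.2.2.2.2.2.1 s (by omega)
      have h2 := (hnu r).2.2.2.2.2.2.2.2.2.2.1
      have h3 := (hnu r).2.2.2.2.2.2.1
      have h4 : 1 + ((2 * r + 2 : ℕ) : ℝ) * (-p) ≤ (1 + -p) ^ (2 * r + 2) :=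
        one_add_mul_le_pow (by linarith) _
      have h5 : (1 + -p) = 1 - p := by ring
      rw [h5] at h4
      have h6 : ((2 * r + 2 : ℕ) : ℝ) ≤ 2 * H := by
        have : 2 * r + 2 ≤ 2 * H := by omega
        exact_mod_cast this
      have h7 : ((2 * r + 2 : ℕ) : ℝ) * p ≤ 2 * H * p := mul_le_mul_of_nonneg_right h6 p0.le
      rw [h1]
      linarith
    have hsumPI : ∑ s ∈ Icc 1 (2 * H), PI p H (rr H β c θ) s ≤ β * (2 * (H : ℝ) ^ 2 * p) := by
      unfold PI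
      rw [Finset.sum_comm]
      calc ∑ r ∈ range H, ∑ s ∈ Icc 1 (2 * H), rr H β c θ (r + 1) * pp p r s
          ≤ ∑ r ∈ range H, β * (2 * H * p) := by
            refine Finset.sum_le_sum fun r hr => ?_
            rw [← Finset.mul_sum]
            refine mul_le_mul (hρle _) (hsumpp r (Finset.mem_range.1 hr)) ?_ hβ0.le
            exact Finset.sum_nonneg fun s _ => hpp r s
        _ = β * (2 * (H : ℝ) ^ 2 * p) := by
            rw [Finset.sum_const, Finset.card_range, nsmul_eq_mul]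
            ring
    have hsum : ∑ s ∈ Icc 1 (2 * H), PI p H (rr H β c θ) s * ((1 - κ)⁻¹) ^ (s * k) ≤
        β * (2 * (H : ℝ) ^ 2 * p) * ((1 - κ)⁻¹) ^ (2 * H * k) := by
      calc ∑ s ∈ Icc 1 (2 * H), PI p H (rr H β c θ) s * ((1 - κ)⁻¹) ^ (s * k)
          ≤ ∑ s ∈ Icc 1 (2 * H), PI p H (rr H β c θ) s * ((1 - κ)⁻¹) ^ (2 * H * k) := by
            refine Finset.sum_le_sum fun s hs => ?_
            rw [Finset.mem_Icc] at hs
            refine mul_le_mul_of_nonneg_left ?_ (hPI0 s)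
            exact pow_le_pow_right₀ ht1 (Nat.mul_le_mul_right k hs.2)
        _ = (∑ s ∈ Icc 1 (2 * H), PI p H (rr H β c θ) s) * ((1 - κ)⁻¹) ^ (2 * H * k) := by
            rw [Finset.sum_mul]
        _ ≤ _ := mul_le_mul_of_nonneg_right hsumPI (by positivity)
    have h1 : qq p 0 * rr H β c θ 1 * ((1 - κ)⁻¹) ^ (k + 1) ≤ c * β := by
      rw [mul_assoc]
      have h2 : 0 ≤ rr H β c θ 1 * ((1 - κ)⁻¹) ^ (k + 1) := mul_nonneg (hρn 1) (by positivity)
      calc qq p 0 * (rr H β c θ 1 * ((1 - κ)⁻¹) ^ (k + 1))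
          ≤ 1 * (rr H β c θ 1 * ((1 - κ)⁻¹) ^ (k + 1)) := mul_le_mul_of_nonneg_right hq1 h2
        _ ≤ c * β := by rw [one_mul]; exact hρ1
    have h2 : rr H β c θ 0 = β := rfl
    rw [h2]
    calc _ ≤ c * β + β * (2 * (H : ℝ) ^ 2 * p) * ((1 - κ)⁻¹) ^ (2 * H * k) := add_le_add h1 hsum
      _ = β := by rw [hc]; ring

/-- EX: existence of parameters. -/
theorem p_EX (h0 : T_NU) : T_EX := by
  intro b hb0 hb1
  set E : ℝ := Real.exp (-b) with hE
  have hE0 : 0 < E := Real.exp_pos _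
  have hE1 : E < 1 := by rw [hE, Real.exp_lt_one_iff]; linarith
  have hbE : 1 - b < E := Real.one_sub_lt_exp_neg hb0.ne'
  have hkey : (1 - b) * (1 - E) < b * E := by nlinarith
  -- choice of H
  obtain ⟨H, hH⟩ : ∃ H : ℕ, (1 - b) * (1 - E) < b * E * (1 - E ^ (H + 1)) := by
    have h1 : Tendsto (fun n : ℕ => b * E * (1 - E ^ (n + 1))) atTop (𝓝 (b * E * (1 - 0))) := by
      have h2 : Tendsto (fun n : ℕ => E ^ (n + 1)) atTop (𝓝 0) :=
        (tendsto_pow_atTop_nhds_zero_of_lt_one hE0.le hE1).comp (tendsto_add_atTop_nat 1)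
      exact (tendsto_const_nhds.sub h2).const_mul _
    rw [sub_zero, mul_one] at h1
    exact (h1.eventually (lt_mem_nhds hkey)).exists
  set S : ℝ := 1 + 1 * ∑ r ∈ range H, E ^ (r + 1) with hSdef
  have hS0 : 0 < S := by positivity
  have hS : (1 - E) * S = 1 - E ^ (H + 1) := by
    have h1 := mul_neg_geom_sum E (H + 1)
    rw [Finset.sum_range_succ'] at h1
    rw [hSdef, ← h1]
    ring
  have hlim : (1 - b) / S < b * E := by
    rw [div_lt_iff₀ hS0]
    have h1 : (1 - b) * (1 - E) < b * E * S * (1 - E) := by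
      calc (1 - b) * (1 - E) < b * E * (1 - E ^ (H + 1)) := hH
        _ = b * E * S * (1 - E) := by rw [← hS]; ring
    exact lt_of_mul_lt_mul_right h1 (by linarith)
  -- sequences
  have hdiv : Tendsto (fun k : ℕ => b / (k : ℝ)) atTop (𝓝 0) :=
    tendsto_const_div_atTop_nhds_zero_nat b
  have hp : Tendsto (fun k : ℕ => (1 - b) / (k : ℝ)) atTop (𝓝 0) :=
    tendsto_const_div_atTop_nhds_zero_nat (1 - b)
  have hy : Tendsto (fun k : ℕ => 1 - b / (k : ℝ)) atTop (𝓝 1) := by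
    have := hdiv.const_sub 1
    rwa [sub_zero] at this
  have hx : Tendsto (fun k : ℕ => (1 - b / (k : ℝ)) ^ k) atTop (𝓝 E) := by
    have h1 := Real.tendsto_one_add_div_pow_exp (-b)
    refine h1.congr fun k => ?_
    rw [neg_div, ← sub_eq_add_neg]
  have hθ : Tendsto (fun k : ℕ => (1 - b / (k : ℝ)) ^ (k + 1)) atTop (𝓝 E) := by
    have h1 := hx.mul hy
    rw [mul_one] at h1
    exact h1.congr fun k => (pow_succ _ _).symm
  have ht : Tendsto (fun k : ℕ => ((1 - b / (k : ℝ))⁻¹) ^ (2 * H * k)) atTop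
      (𝓝 ((E⁻¹) ^ (2 * H))) := by
    have h1 := (hx.inv₀ hE0.ne').pow (2 * H)
    refine h1.congr fun k => ?_
    rw [← inv_pow, ← pow_mul, mul_comm k]
  have hc : Tendsto (fun k : ℕ => 1 - 2 * (H : ℝ) ^ 2 * ((1 - b) / (k : ℝ)) *
      ((1 - b / (k : ℝ))⁻¹) ^ (2 * H * k)) atTop (𝓝 1) := by
    have h1 := ((hp.const_mul (2 * (H : ℝ) ^ 2)).mul ht).const_sub 1
    rwa [mul_zero, zero_mul, sub_zero] at h1
  have hSk : Tendsto (fun k : ℕ => 1 + (1 - 2 * (H : ℝ) ^ 2 * ((1 - b) / (k : ℝ)) *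
      ((1 - b / (k : ℝ))⁻¹) ^ (2 * H * k)) *
      ∑ r ∈ range H, ((1 - b / (k : ℝ)) ^ (k + 1)) ^ (r + 1)) atTop (𝓝 S) := by
    have h1 : Tendsto (fun k : ℕ => ∑ r ∈ range H, ((1 - b / (k : ℝ)) ^ (k + 1)) ^ (r + 1)) atTop
        (𝓝 (∑ r ∈ range H, E ^ (r + 1))) :=
      tendsto_finsetSum _ fun r _ => hθ.pow (r + 1)
    exact (hc.mul h1).const_add 1
  have hkβ := (tendsto_const_nhds (x := 1 - b)).div hSk hS0.ne'
  have hkκ : Tendsto (fun k : ℕ => b * ((1 - b / (k : ℝ)) ^ k / (1 - b / (k : ℝ)))) atTop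
      (𝓝 (b * (E / 1))) := (hx.div hy one_ne_zero).const_mul b
  rw [div_one] at hkκ
  filter_upwards [eventually_ge_atTop 2, eventually_ge_atTop (H + 1),
    hc.eventually (lt_mem_nhds zero_lt_one), hkβ.eventually_lt hkκ hlim] with k hk2 hkH hck hlt
  have hk0 : (0 : ℝ) < k := by
    have : 0 < k := by omega
    exact_mod_cast this
  have hk2' : (2 : ℝ) ≤ k := by exact_mod_cast hk2
  have hκ0 : 0 < b / (k : ℝ) := by positivity
  have hκ1 : b / (k : ℝ) < 1 := by rw [div_lt_one hk0]; linarith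
  refine ⟨H, _, b / k, _, mkPar h0 k H ((1 - b) / k) _ (b / k) _ _ hk2 hkH ?_ ?_ hκ0 hκ1 rfl rfl
    hck.le rfl ?_⟩
  · exact div_pos (by linarith) hk0
  · rw [div_lt_one hk0]; linarith
  · have hyk : 0 < 1 - b / (k : ℝ) := by linarith
    have h1 : (1 - b / (k : ℝ)) ^ k / (1 - b / (k : ℝ)) = (1 - b / (k : ℝ)) ^ (k - 1) := by
      obtain ⟨j, rfl⟩ : ∃ j, k = j + 1 := ⟨k - 1, by omega⟩
      rw [pow_succ, Nat.add_sub_cancel, mul_div_assoc, div_self hyk.ne', mul_one]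
    rw [h1] at hlt
    rw [div_right_comm]
    rw [show b / (k : ℝ) * (1 - b / (k : ℝ)) ^ (k - 1) = b * (1 - b / (k : ℝ)) ^ (k - 1) / k by ring]
    exact div_le_div_of_nonneg_right hlt.le hk0.le

end Pool.Agent.PKA
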