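import Pool.Agent.PKA.Targets

/-!
# EX0: parameters for `H = 0`
-/

set_option autoImplicit false

open MeasureTheory ProbabilityTheory Filter Topology Finset

namespace Pool.Agent.PKA

private lemma ex0_eq (k : ℕ) (hk : 2 ≤ k) : ((k : ℝ) - 1) ^ (k - 1) / (k : ℝ) ^ k
    = 1 / k * (1 - 1 / (k : ℝ)) ^ (k - 1) := by
  have hk0 : (0 : ℝ) < k := by
    have : (2 : ℝ) ≤ k := by exact_mod_cast hk
    linarith
  have h1 : (1 - 1 / (k : ℝ)) = ((k : ℝ) - 1) / k := by
    field_simp
  obtain ⟨n, rfl⟩ : ∃ n, k = n + 1 := ⟨k - 1, by omega⟩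
  rw [h1, div_pow, Nat.add_sub_cancel, pow_succ]
  field_simp

theorem p_EX0 : T_EX0 := by
  intro k hk
  have hk2 : (2 : ℝ) ≤ k := by exact_mod_cast hk
  have hk0 : (0 : ℝ) < k := by linarith
  have hinv : (0 : ℝ) < 1 / k := by positivity
  have hinv1 : 1 / (k : ℝ) < 1 := by
    rw [div_lt_one hk0]
    linarith
  have hpos : 0 < ((k : ℝ) - 1) ^ (k - 1) / (k : ℝ) ^ k := by
    have : (0 : ℝ) < (k : ℝ) - 1 := by linarith
    positivity
  have hlt : ((k : ℝ) - 1) ^ (k - 1) / (k : ℝ) ^ k < 1 := by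
    rw [ex0_eq k hk]
    have h2 : (1 - 1 / (k : ℝ)) ^ (k - 1) ≤ 1 := pow_le_one₀ (by linarith) (by linarith)
    nlinarith
  refine
    { hk := hk
      hH := by omega
      p0 := hpos
      p1 := hlt
      κ0 := hinv
      κ1 := hinv1
      β0 := hpos
      hβ := (ex0_eq k hk).le
      ρ0 := by simp
      ρn := ?_
      ρH := by simp
      sum := by simp
      dec := by intro r h1 h2; omega
      dec0 := ?_ }
  · intro r
    split_ifs
    · exact hpos.le
    · exact le_rfl
  · have h1 : (if (1 : ℕ) = 0 then ((k : ℝ) - 1) ^ (k - 1) / (k : ℝ) ^ k else 0) = 0 := by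
      rw [if_neg (by norm_num)]
    simp only [h1, mul_zero, zero_mul, zero_add, if_true]
    rw [Finset.Icc_eq_empty (by norm_num), Finset.sum_empty]
    exact hpos.le

end Pool.Agent.PKA
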