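import Pool.Agent.PKA.Targets

set_option autoImplicit false

/-!
# FAC: factorisation at a one
-/

open MeasureTheory ProbabilityTheory Filter Topology Finset

namespace Pool.Agent.PKA

private theorem f_aft_mul (m : Mdl) {g₁ g₂ : St → ℝ} {g : ℝ}
    (h : ∀ s, OkSt m s → g₁ s = g * g₂ s) (r : ℕ) (hr : r ≤ m.H) :
    m.aft g₁ r = g * m.aft g₂ r := by
  cases r with
  | zero => exact h _ trivial
  | succ r =>
    have h1 : g₁ (St.W m.k r) = g * g₂ (St.W m.k r) := h _ (by change r ≤ m.H; omega)
    have h2 : ∀ s, g₁ (St.W (s * m.k - 1) 0) = g * g₂ (St.W (s * m.k - 1) 0) :=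
      fun s => h _ (Nat.zero_le _)
    simp only [Mdl.aft, h1, h2, mul_add, Finset.mul_sum]
    congr 1
    · ring
    · exact sum_congr rfl fun s _ => by ring

private theorem f_step_mul (m : Mdl) {g₁ g₂ : St → ℝ} {g : ℝ}
    (h : ∀ s, OkSt m s → g₁ s = g * g₂ s) (c : Option Bool) (s : St) (hs : OkSt m s) :
    m.step c g₁ s = g * m.step c g₂ s := by
  have hsum : ∀ x, ∑ r ∈ range (m.H + 1), m.e x r * m.aft g₁ r =
      g * ∑ r ∈ range (m.H + 1), m.e x r * m.aft g₂ r := fun x => by
    rw [Finset.mul_sum]
    refine sum_congr rfl fun r hr => ?_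
    rw [f_aft_mul m h r (by rw [mem_range] at hr; omega)]
    ring
  cases s with
  | S x =>
    simp only [Mdl.step, hsum, h (St.S (x + 1)) trivial]
    ring
  | W d r =>
    cases d with
    | zero =>
      simp only [Mdl.step, f_aft_mul m h r hs]
      ring
    | succ d =>
      simp only [Mdl.step, h (St.W d r) hs]
      ring
  | B d =>
    cases d with
    | zero =>
      simp only [Mdl.step, hsum, h (St.S 1) trivial]
      ring
    | succ d =>
      simp only [Mdl.step, h (St.B d) trivial]
      ring

private theorem f_aft_base (m : Mdl) (hm : Basic m) (r : ℕ) (hr : r ≤ m.H) :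
    m.aft m.base r = 1 := by
  cases r with
  | zero => rfl
  | succ r =>
    simp only [Mdl.aft, Mdl.base, mul_one]
    exact hm.mass r (by omega)

private theorem f_zero (m : Mdl) (hm : Basic m) (l : List (Option Bool)) (g : ℝ)
    (h : ∀ r ≤ m.H, m.aft (m.val l) r = g) (s : St) (hs : OkSt m s) :
    m.step (some true) (m.val l) s = g * m.step (some true) m.base s := by
  have h0 : ok0 (some true) = 0 := by simp [ok0]
  have hsum : ∀ x, ∑ r ∈ range (m.H + 1), m.e x r * m.aft (m.val l) r =
      g * ∑ r ∈ range (m.H + 1), m.e x r * m.aft m.base r := fun x => by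
    rw [Finset.mul_sum]
    refine sum_congr rfl fun r hr => ?_
    rw [mem_range] at hr
    rw [h r (by omega), f_aft_base m hm r (by omega)]
    ring
  cases s with
  | S x =>
    simp only [Mdl.step, hsum, h0]
    ring
  | W d r =>
    cases d with
    | zero =>
      simp only [Mdl.step, h r hs, f_aft_base m hm r hs]
      ring
    | succ d =>
      simp only [Mdl.step, h0]
      ring
  | B d =>
    cases d with
    | zero =>
      simp only [Mdl.step, hsum, h0]
      ring
    | succ d =>
      simp only [Mdl.step, h0]
      ring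

theorem p_FAC : T_FAC := by
  intro m hm l g h j
  induction j with
  | zero =>
    intro s hs
    exact f_zero m hm l g h s hs
  | succ j ih =>
    intro s hs
    change m.step none (m.val (List.replicate j none ++ some true :: l)) s =
      g * m.step none (m.val (List.replicate j none ++ [some true])) s
    exact f_step_mul m ih none s hs

end Pool.Agent.PKA
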