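import Pool.Agent.PKA.Targets

set_option autoImplicit false

/-!
# 1-avoidance couplings of Bernoulli walkers (MP_f1618c_pr): the result
-/

open MeasureTheory ProbabilityTheory Filter Topology Finset

namespace Pool.Agent.PKA

/-- Admissible parameters give a coupling. -/
theorem coupled_of_par (hlab : T_LAB) (hnu : T_NU) (hid : T_ID) (hbas : T_BAS) (huni : T_UNI)
    (hcpl : T_CPL) {k H : ℕ} {p β κ : ℝ} {ρ : ℕ → ℝ} (hP : Par k H p β κ ρ) : Coupled k p := by
  have hb := hbas k H p β κ ρ hP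
  have hl : Law (mdl k H p β ρ) p := by
    refine ⟨hP.hH, huni k H p β κ ρ hP, fun c => rfl, fun r _ => rfl, fun r _ c => rfl,
      fun r _ => ?_, fun r hr => ?_, fun r hr a => ?_⟩
    · exact (hnu p hP.p0 hP.p1 r).2.2.2.2.2.2.2.2.1
    · have hr' : r < H := hr
      exact (hnu p hP.p0 hP.p1 r).2.1 _ (by show 2 * r + 2 ≤ 2 * H + 1; omega)
    · exact hid p hP.p0 hP.p1 H r hr a
  exact hcpl (mdl k H p β ρ) p hb hP.p0.le hP.p1.le
    (fun a j => hlab (mdl k H p β ρ) p hb hl a j)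

private lemma le_pk {k : ℕ} {p : ℝ} (h0 : 0 ≤ p) (h1 : p ≤ 1) (h : Coupled k p) : p ≤ pk k :=
  le_csSup ⟨1, fun _ hx => hx.2.1⟩ ⟨h0, h1, h⟩

private lemma mul_pk_le (hub : T_UB) {k : ℕ} (hk : 1 ≤ k) : (k : ℝ) * pk k ≤ 1 := by
  have hk0 : (0 : ℝ) < k := by exact_mod_cast hk
  have h : pk k ≤ 1 / k := by
    refine Real.sSup_le ?_ (by positivity)
    rintro x ⟨hx0, _, hx⟩
    rw [le_div_iff₀ hk0, mul_comm]
    exact hub k x hk hx0 hx
  rw [le_div_iff₀ hk0, mul_comm] at h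
  exact h

/-- FIN. -/
theorem p_FIN (hlab : T_LAB) (hnu : T_NU) (hid : T_ID) (hbas : T_BAS) (huni : T_UNI)
    (hcpl : T_CPL) (hex : T_EX) (hex0 : T_EX0) (hub : T_UB) (hub2 : T_UB2) : T_FIN := by
  refine ⟨?_, ?_, ?_⟩
  · refine tendsto_order.2 ⟨fun a ha => ?_, fun a ha => ?_⟩
    · set ε : ℝ := min ((1 - a) / 2) (1 / 2) with hε
      have hε0 : 0 < ε := lt_min (by linarith) (by norm_num)
      have hε1 : ε < 1 := lt_of_le_of_lt (min_le_right _ _) (by norm_num)
      have hεa : ε ≤ (1 - a) / 2 := min_le_left _ _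
      filter_upwards [hex ε hε0 hε1, eventually_ge_atTop 1] with k hk hk1
      obtain ⟨H, β, κ, ρ, hP⟩ := hk
      have hk0 : (0 : ℝ) < k := by exact_mod_cast hk1
      have h1 := le_pk hP.p0.le hP.p1.le
        (coupled_of_par hlab hnu hid hbas huni hcpl hP)
      rw [div_le_iff₀ hk0] at h1
      calc a < 1 - ε := by linarith
        _ ≤ pk k * k := h1
        _ = k * pk k := mul_comm _ _
    · filter_upwards [eventually_ge_atTop 1] with k hk
      exact lt_of_le_of_lt (mul_pk_le hub hk) ha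
  · refine Real.sSup_le ?_ (by norm_num)
    rintro x ⟨hx0, hx1, hx⟩
    exact hub2 x hx0 hx1 hx
  · intro k hk
    have hP := hex0 k hk
    exact le_pk hP.p0.le hP.p1.le
      (coupled_of_par hlab hnu hid hbas huni hcpl hP)

end Pool.Agent.PKA
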