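import Pool.Agent.PKA.Targets

set_option autoImplicit false

/-!
# PKA: two ones at distance less than `k` are impossible
-/

open Finset

namespace Pool.Agent.PKA

namespace GAP_

theorem ok0_true : ok0 (some true) = 0 := by simp [ok0]

theorem val_cons (m : Mdl) (c : Option Bool) (l : List (Option Bool)) (s : St) :
    m.val (c :: l) s = m.step c (m.val l) s := rfl

/-- a one cannot come before the forced zeros are over -/
theorem wait_zero (m : Mdl) (l₃ : List (Option Bool)) :
    ∀ (l₂ : List (Option Bool)) (d : ℕ), l₂.length < d →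
      (∀ r, m.val (l₂ ++ some true :: l₃) (St.W d r) = 0) ∧
        m.val (l₂ ++ some true :: l₃) (St.B d) = 0 := by
  intro l₂
  induction l₂ with
  | nil =>
    intro d hd
    obtain ⟨d', rfl⟩ : ∃ d', d = d' + 1 := ⟨d - 1, by
      simp only [List.length_nil] at hd
      omega⟩
    refine ⟨fun r => ?_, ?_⟩
    · rw [List.nil_append, val_cons]
      show ok0 (some true) * _ = 0
      rw [ok0_true, zero_mul]
    · rw [List.nil_append, val_cons]
      show ok0 (some true) * _ = 0
      rw [ok0_true, zero_mul]
  | cons x l₂ ih =>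
    intro d hd
    obtain ⟨d', rfl⟩ : ∃ d', d = d' + 1 := ⟨d - 1, by
      simp only [List.length_cons] at hd
      omega⟩
    have hd' : l₂.length < d' := by
      simp only [List.length_cons] at hd
      omega
    obtain ⟨h1, h2⟩ := ih d' hd'
    refine ⟨fun r => ?_, ?_⟩
    · rw [List.cons_append, val_cons]
      show ok0 x * m.val (l₂ ++ some true :: l₃) (St.W d' r) = 0
      rw [h1, mul_zero]
    · rw [List.cons_append, val_cons]
      show ok0 x * m.val (l₂ ++ some true :: l₃) (St.B d') = 0
      rw [h2, mul_zero]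

theorem aft_zero (m : Mdl) (l₂ l₃ : List (Option Bool)) (h : l₂.length + 1 < m.k) (r : ℕ) :
    m.aft (m.val (l₂ ++ some true :: l₃)) r = 0 := by
  cases r with
  | zero =>
    show m.val (l₂ ++ some true :: l₃) (St.B (m.k - 1)) = 0
    exact (wait_zero m l₃ l₂ (m.k - 1) (by omega)).2
  | succ r =>
    show m.q r * m.val (l₂ ++ some true :: l₃) (St.W m.k r) +
      ∑ s ∈ Icc 1 m.N, m.pi r s * m.val (l₂ ++ some true :: l₃) (St.W (s * m.k - 1) 0) = 0
    rw [(wait_zero m l₃ l₂ m.k (by omega)).1 r, mul_zero, zero_add]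
    apply sum_eq_zero
    intro s hs
    have h1 : 1 ≤ s := (mem_Icc.1 hs).1
    have h2 : m.k ≤ s * m.k := Nat.le_mul_of_pos_left m.k h1
    rw [(wait_zero m l₃ l₂ (s * m.k - 1) (by omega)).1 0, mul_zero]

theorem head_zero (m : Mdl) (l₂ l₃ : List (Option Bool)) (h : l₂.length + 1 < m.k) (s : St) :
    m.val (some true :: (l₂ ++ some true :: l₃)) s = 0 := by
  rw [val_cons]
  have h1 := aft_zero m l₂ l₃ h
  cases s with
  | S x =>
    show ok1 (some true) * ∑ r ∈ range (m.H + 1), m.e x r * m.aft (m.val (l₂ ++ some true :: l₃)) r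
      + ok0 (some true) * _ = 0
    rw [ok0_true, zero_mul, add_zero, sum_eq_zero (fun r _ => by rw [h1, mul_zero]), mul_zero]
  | W d r =>
    cases d with
    | zero =>
      show ok1 (some true) * m.aft (m.val (l₂ ++ some true :: l₃)) r = 0
      rw [h1, mul_zero]
    | succ d =>
      show ok0 (some true) * _ = 0
      rw [ok0_true, zero_mul]
  | B d =>
    cases d with
    | zero =>
      show ok1 (some true) * ∑ r ∈ range (m.H + 1), m.e 0 r *
        m.aft (m.val (l₂ ++ some true :: l₃)) r + ok0 (some true) * _ = 0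
      rw [ok0_true, zero_mul, add_zero, sum_eq_zero (fun r _ => by rw [h1, mul_zero]), mul_zero]
    | succ d =>
      show ok0 (some true) * _ = 0
      rw [ok0_true, zero_mul]

theorem step_zero (m : Mdl) (g : St → ℝ) (hg : ∀ s, g s = 0) (c : Option Bool) (s : St) :
    m.step c g s = 0 := by
  have h1 : ∀ r, m.aft g r = 0 := by
    intro r
    cases r with
    | zero => exact hg _
    | succ r =>
      show m.q r * g (St.W m.k r) + ∑ s ∈ Icc 1 m.N, m.pi r s * g (St.W (s * m.k - 1) 0) = 0
      rw [hg, mul_zero, zero_add]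
      exact sum_eq_zero (fun s _ => by rw [hg, mul_zero])
  cases s with
  | S x =>
    show ok1 c * ∑ r ∈ range (m.H + 1), m.e x r * m.aft g r + ok0 c * g (St.S (x + 1)) = 0
    rw [hg, mul_zero, add_zero, sum_eq_zero (fun r _ => by rw [h1, mul_zero]), mul_zero]
  | W d r =>
    cases d with
    | zero =>
      show ok1 c * m.aft g r = 0
      rw [h1, mul_zero]
    | succ d =>
      show ok0 c * g (St.W d r) = 0
      rw [hg, mul_zero]
  | B d =>
    cases d with
    | zero =>
      show ok1 c * ∑ r ∈ range (m.H + 1), m.e 0 r * m.aft g r + ok0 c * g (St.S 1) = 0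
      rw [hg, mul_zero, add_zero, sum_eq_zero (fun r _ => by rw [h1, mul_zero]), mul_zero]
    | succ d =>
      show ok0 c * g (St.B d) = 0
      rw [hg, mul_zero]

end GAP_

open GAP_ in
theorem p_GAP : T_GAP := by
  intro m l₁ l₂ l₃ s h
  induction l₁ generalizing s with
  | nil => exact head_zero m l₂ l₃ h s
  | cons x l₁ ih =>
    rw [List.cons_append, val_cons]
    exact step_zero m _ ih x s

end Pool.Agent.PKA
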