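import Pool.Agent.PKA.Targets

set_option autoImplicit false

/-!
# ID: conditioning on the first one
-/

open MeasureTheory ProbabilityTheory Filter Topology Finset

namespace Pool.Agent.PKA

private lemma ID_step (p : ℝ) (c : ℕ) : ∀ a : List (Option Bool),
    zw p c a = p * os p (c + 1) a + (1 - p) * zw p (c + 1) a := by
  induction c with
  | zero =>
    intro a
    cases a with
    | nil => simp [zw, os, wt]
    | cons x a =>
      have h1 : zw p 0 (x :: a) = bw p x * wt p a := by simp [zw, wt]
      have h2 : os p (0 + 1) (x :: a) = ok1 x * wt p a := by simp [os]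
      have h3 : zw p (0 + 1) (x :: a) = ok0 x * wt p a := by simp [zw]
      rw [h1, h2, h3]
      have h4 : bw p x = p * ok1 x + (1 - p) * ok0 x := by
        rcases x with _ | _ | _ <;> simp [bw, ok1, ok0]
      rw [h4]
      ring
  | succ c ih =>
    intro a
    cases a with
    | nil => simp [zw, os]
    | cons x a =>
      have h1 : zw p (c + 1) (x :: a) = ok0 x * zw p c a := rfl
      have h2 : os p (c + 1 + 1) (x :: a) = ok0 x * os p (c + 1) a := rfl
      have h3 : zw p (c + 1 + 1) (x :: a) = ok0 x * zw p (c + 1) a := rfl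
      rw [h1, h2, h3, ih a]
      ring

private lemma ID_exp (p : ℝ) (a : List (Option Bool)) (c n : ℕ) (h : c ≤ n) :
    zw p c a = ∑ s ∈ Icc 1 n, (if c + 1 ≤ s then p * (1 - p) ^ (s - 1 - c) else 0) * os p s a
      + (1 - p) ^ (n - c) * zw p n a := by
  induction n, h using Nat.le_induction with
  | base =>
    have h0 : ∑ s ∈ Icc 1 c, (if c + 1 ≤ s then p * (1 - p) ^ (s - 1 - c) else 0) * os p s a
        = 0 := by
      refine sum_eq_zero fun s hs => ?_
      rw [mem_Icc] at hs
      rw [if_neg (by omega), zero_mul]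
    rw [h0, Nat.sub_self]
    ring
  | succ n hn ih =>
    rw [sum_Icc_succ_top (by omega), if_pos (by omega)]
    have e1 : n + 1 - 1 - c = n - c := by omega
    have e2 : n + 1 - c = (n - c) + 1 := by omega
    rw [e1, e2, pow_succ]
    rw [ih, ID_step p n a]
    ring

theorem p_ID (h0 : T_NU) : T_ID := by
  intro p hp0 hp1 H r hr a
  obtain ⟨_, hsup, _, _, _, _, _, _, _, _, _, hid, hlast⟩ := h0 p hp0 hp1 r
  have hq : (1 - p) ≠ 0 := by linarith [sub_pos.2 hp1]
  -- restrict the sum
  have e1 : ∑ c ∈ range (2 * H + 2), nu p r c * zw p (c + 1) a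
      = ∑ c ∈ range (2 * r + 2), nu p r c * zw p (c + 1) a := by
    symm
    refine sum_subset (range_subset_range.2 (by omega)) fun c _ hc => ?_
    rw [mem_range, not_lt] at hc
    rw [hsup c hc, zero_mul]
  have e2 : ∀ c ∈ range (2 * r + 2), nu p r c * zw p (c + 1) a
      = ∑ s ∈ Icc 1 (2 * H), (if c + 2 ≤ s then nu p r c * (p * (1 - p) ^ (s - 2 - c)) else 0)
          * os p s a
        + (nu p r c * ((1 - p)⁻¹) ^ (c + 1)) * ((1 - p) ^ (2 * H) * zw p (2 * H) a) := by
    intro c hc
    rw [mem_range] at hc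
    rw [ID_exp p a (c + 1) (2 * H) (by omega), mul_add, mul_sum]
    congr 1
    · refine sum_congr rfl fun s _ => ?_
      by_cases hs : c + 2 ≤ s
      · rw [if_pos (by omega), if_pos hs]
        have : s - 1 - (c + 1) = s - 2 - c := by omega
        rw [this]
        ring
      · rw [if_neg (by omega), if_neg hs]
        ring
    · have e3 : (1 - p) ^ (2 * H) = (1 - p) ^ (2 * H - (c + 1)) * (1 - p) ^ (c + 1) := by
        rw [← pow_add]
        congr 1
        omega
      rw [e3, inv_pow]
      field_simp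
  rw [e1, sum_congr rfl e2, sum_add_distrib, sum_comm, ← sum_mul, mul_add]
  have e4 : qq p r * ((∑ c ∈ range (2 * r + 2), nu p r c * ((1 - p)⁻¹) ^ (c + 1))
      * ((1 - p) ^ (2 * H) * zw p (2 * H) a)) = (1 - p) ^ (2 * H) * zw p (2 * H) a := by
    rw [← mul_assoc, hlast, one_mul]
  rw [e4, ← add_assoc, mul_sum, ← sum_add_distrib]
  have e5 := ID_exp p a 0 (2 * H) (Nat.zero_le _)
  rw [Nat.sub_zero] at e5
  have e6 : wt p a = zw p 0 a := rfl
  rw [e6, e5]
  congr 1
  refine sum_congr rfl fun s hs => ?_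
  rw [mem_Icc] at hs
  rw [if_pos (by omega), Nat.sub_zero, hid s hs.1, ← sum_mul]
  ring

end Pool.Agent.PKA
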