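import Pool.Agent.PKA.Defs

set_option autoImplicit false

/-!
# An explicit 1-avoidance coupling of two Bernoulli(1/3) walkers
-/

open MeasureTheory ProbabilityTheory Finset

namespace Pool.Agent.PKA

private abbrev Sp : Type := ℕ → Fin 3 × Bool

private noncomputable def m0 : Measure (Fin 3 × Bool) :=
  (PMF.uniformOfFintype (Fin 3 × Bool)).toMeasure

private instance : IsProbabilityMeasure m0 := by
  unfold m0
  infer_instance

private lemma m0_real (B : Finset (Fin 3 × Bool)) :
    m0.real (B : Set (Fin 3 × Bool)) = (B.card : ℝ) / 6 := by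
  unfold m0
  rw [measureReal_def, PMF.toMeasure_uniformOfFintype_apply _ (MeasurableSet.of_discrete)]
  simp

private noncomputable def mu : Measure Sp := Measure.infinitePi (fun _ : ℕ => m0)

private instance : IsProbabilityMeasure mu := by
  unfold mu
  infer_instance

/-- the next colour -/
private def nx (x y y' : Fin 3) : Fin 3 := if y = y' then -(x + y) else -(y + y')

private def xx (ω : Sp) : ℕ → Fin 3
  | 0 => (ω 0).1 + (if (ω 0).2 then 1 else 2)
  | t + 1 => nx (xx ω t) (ω t).1 (ω (t + 1)).1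

private lemma nx_ne : ∀ x y y' : Fin 3, x ≠ y → nx x y y' ≠ y ∧ nx x y y' ≠ y' := by
  decide

private lemma xx_ne (ω : Sp) : ∀ t, xx ω t ≠ (ω t).1
  | 0 => by
    have : ∀ (c : Fin 3) (b : Bool), c + (if b then 1 else 2) ≠ c := by decide
    exact this _ _
  | t + 1 => (nx_ne _ _ _ (xx_ne ω t)).2

private lemma xx_ne' (ω : Sp) (t : ℕ) : xx ω (t + 1) ≠ (ω t).1 :=
  (nx_ne _ _ _ (xx_ne ω t)).1

private lemma meas_xx : ∀ t, Measurable (fun ω : Sp => xx ω t)
  | 0 => by
    have : Measurable (fun z : Fin 3 × Bool => z.1 + (if z.2 then 1 else 2)) :=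
      Measurable.of_discrete
    exact this.comp (measurable_pi_apply 0)
  | t + 1 => by
    have h : Measurable (fun z : Fin 3 × (Fin 3 × Fin 3) => nx z.1 z.2.1 z.2.2) :=
      Measurable.of_discrete
    exact h.comp ((meas_xx t).prodMk ((measurable_fst.comp (measurable_pi_apply t)).prodMk
      (measurable_fst.comp (measurable_pi_apply (t + 1)))))

private lemma xx_congr {ω ω' : Sp} : ∀ t, (∀ i ≤ t, ω i = ω' i) → xx ω t = xx ω' t
  | 0, h => by simp only [xx, h 0 le_rfl]
  | t + 1, h => by
    simp only [xx, h t (Nat.le_succ t), h (t + 1) le_rfl]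
    rw [xx_congr t (fun i hi => h i (hi.trans (Nat.le_succ t)))]

private lemma mu_eval (n : ℕ) (B : Finset (Fin 3 × Bool)) :
    mu.real {ω | ω n ∈ B} = (B.card : ℝ) / 6 := by
  rw [← m0_real B]
  have h := measurePreserving_eval_infinitePi (fun _ : ℕ => m0) n
  have h2 := h.measure_preimage (s := (B : Set (Fin 3 × Bool)))
    (MeasurableSet.of_discrete).nullMeasurableSet
  rw [measureReal_def, measureReal_def, ← h2]
  rfl

private lemma mu_indep (E : Set Sp) (hE : MeasurableSet E) (n : ℕ)
    (hd : ∀ ω ω' : Sp, (∀ i ≤ n, ω i = ω' i) → ω ∈ E → ω' ∈ E) (B : Finset (Fin 3 × Bool)) :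
    mu.real (E ∩ {ω | ω (n + 1) ∈ B}) = mu.real E * ((B.card : ℝ) / 6) := by
  have hI : iIndepFun (fun (i : ℕ) (ω : Sp) => ω i) mu :=
    iIndepFun_infinitePi (P := fun _ : ℕ => m0) (X := fun _ ω => ω) (by fun_prop)
  have h := hI.indepFun_finset (Finset.range (n + 1)) {n + 1}
    (by simp) (fun i => measurable_pi_apply i)
  let ext : ((i : Finset.range (n + 1)) → Fin 3 × Bool) → Sp := fun z i =>
    if h : i ∈ Finset.range (n + 1) then z ⟨i, h⟩ else (0, false)
  have hext : Measurable ext := by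
    refine measurable_pi_iff.2 (fun i => ?_)
    by_cases hi : i ∈ Finset.range (n + 1)
    · simp only [ext, hi, dif_pos]
      exact measurable_pi_apply _
    · simp only [ext, hi, dif_neg, not_false_eq_true]
      exact measurable_const
  have hB : MeasurableSet {z : ((i : ({n + 1} : Finset ℕ)) → Fin 3 × Bool) |
      z ⟨n + 1, Finset.mem_singleton_self _⟩ ∈ B} := by
    have : Measurable (fun z : ((i : ({n + 1} : Finset ℕ)) → Fin 3 × Bool) =>
        z ⟨n + 1, Finset.mem_singleton_self _⟩) := measurable_pi_apply _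
    exact this (MeasurableSet.of_discrete (s := (B : Set (Fin 3 × Bool))))
  have h3 := h.measure_inter_preimage_eq_mul (ext ⁻¹' E) _ (hext hE) hB
  have h4 : (fun (a : Sp) (i : Finset.range (n + 1)) => a i) ⁻¹' (ext ⁻¹' E) = E := by
    ext ω
    simp only [Set.mem_preimage]
    have h5 : ∀ i ≤ n, ext (fun i : Finset.range (n + 1) => ω i) i = ω i := by
      intro i hi
      have : i ∈ Finset.range (n + 1) := Finset.mem_range.2 (by omega)
      simp only [ext, this, dif_pos]
    exact ⟨fun h6 => hd _ _ h5 h6, fun h6 => hd _ _ (fun i hi => (h5 i hi).symm) h6⟩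
  rw [h4] at h3
  rw [← mu_eval (n + 1) B, measureReal_def, measureReal_def, measureReal_def,
    ← ENNReal.toReal_mul]
  exact congrArg ENNReal.toReal h3

private def ev (A : ℕ → Finset (Fin 3)) (n : ℕ) (a b : Fin 3) : Set Sp :=
  {ω | (∀ i < n, xx ω i ∈ A i) ∧ xx ω n = a ∧ (ω n).1 = b}

private lemma meas_ev (A : ℕ → Finset (Fin 3)) (n : ℕ) (a b : Fin 3) :
    MeasurableSet (ev A n a b) := by
  have h1 : ev A n a b = (⋂ i, ⋂ (_ : i < n), (fun ω => xx ω i) ⁻¹' (A i : Set (Fin 3))) ∩
      ((fun ω => xx ω n) ⁻¹' {a} ∩ (fun ω : Sp => (ω n).1) ⁻¹' {b}) := by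
    ext ω
    simp [ev]
  rw [h1]
  refine MeasurableSet.inter (MeasurableSet.iInter fun i => MeasurableSet.iInter fun _ =>
    meas_xx i MeasurableSet.of_discrete) (MeasurableSet.inter (meas_xx n MeasurableSet.of_discrete)
    ((measurable_fst.comp (measurable_pi_apply n)) MeasurableSet.of_discrete))

private lemma ev_dep (A : ℕ → Finset (Fin 3)) (n : ℕ) (a b : Fin 3) (ω ω' : Sp)
    (h : ∀ i ≤ n, ω i = ω' i) (hω : ω ∈ ev A n a b) : ω' ∈ ev A n a b := by
  obtain ⟨h1, h2, h3⟩ := hω
  refine ⟨fun i hi => ?_, ?_, ?_⟩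
  · rw [← xx_congr i (fun j hj => h j (by omega))]
    exact h1 i hi
  · rw [← xx_congr n h]
    exact h2
  · rw [← h n le_rfl]
    exact h3

private lemma ev_succ (A : ℕ → Finset (Fin 3)) (n : ℕ) (a' b' : Fin 3) :
    ev A (n + 1) a' b' = ⋃ z ∈ (Finset.univ.filter
      (fun z : Fin 3 × Fin 3 => z.1 ∈ A n ∧ nx z.1 z.2 b' = a')),
      (ev A n z.1 z.2 ∩ {ω | ω (n + 1) ∈ (Finset.univ.filter
        (fun w : Fin 3 × Bool => w.1 = b'))}) := by
  ext ω
  simp only [ev, Set.mem_iUnion, Set.mem_inter_iff, Set.mem_setOf_eq, Finset.mem_filter,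
    Finset.mem_univ, true_and, exists_prop, Prod.exists]
  constructor
  · rintro ⟨h1, h2, h3⟩
    refine ⟨xx ω n, (ω n).1, ⟨h1 n (Nat.lt_succ_self n), ?_⟩, ⟨fun i hi => h1 i (by omega), rfl,
      rfl⟩, h3⟩
    rw [← h3]
    exact h2
  · rintro ⟨a, b, ⟨h1, h2⟩, ⟨h3, h4, h5⟩, h6⟩
    refine ⟨fun i hi => ?_, ?_, h6⟩
    · rcases Nat.lt_succ_iff_lt_or_eq.1 hi with h | h
      · exact h3 i h
      · rw [h, h4]
        exact h1
    · show nx (xx ω n) (ω n).1 (ω (n + 1)).1 = a'
      rw [h4, h5, h6]
      exact h2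

private lemma cnt : ∀ (S : Finset (Fin 3)) (a' b' : Fin 3),
    ((Finset.univ.filter (fun z : Fin 3 × Fin 3 => z.1 ∈ S ∧ nx z.1 z.2 b' = a')).filter
      (fun z => z.1 ≠ z.2)).card = if a' ≠ b' then S.card else 0 := by
  decide

private lemma main (A : ℕ → Finset (Fin 3)) : ∀ (n : ℕ) (a b : Fin 3),
    mu.real (ev A n a b) = (∏ i ∈ Finset.range n, ((A i).card : ℝ) / 3) *
      (if a ≠ b then 1 / 6 else 0)
  | 0, a, b => by
    have h1 : ev A 0 a b = {ω | ω 0 ∈ Finset.univ.filter (fun w : Fin 3 × Bool =>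
        w.1 + (if w.2 then 1 else 2) = a ∧ w.1 = b)} := by
      ext ω
      simp [ev, xx]
    rw [h1, mu_eval]
    have h2 : ∀ a b : Fin 3, (Finset.univ.filter (fun w : Fin 3 × Bool =>
        w.1 + (if w.2 then 1 else 2) = a ∧ w.1 = b)).card = if a ≠ b then 1 else 0 := by
      decide
    rw [h2 a b]
    split_ifs <;> simp
  | n + 1, a', b' => by
    rw [ev_succ, measureReal_biUnion_finset]
    · have h1 : ∀ z ∈ (Finset.univ.filter
          (fun z : Fin 3 × Fin 3 => z.1 ∈ A n ∧ nx z.1 z.2 b' = a')),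
          mu.real (ev A n z.1 z.2 ∩ {ω | ω (n + 1) ∈ (Finset.univ.filter
            (fun w : Fin 3 × Bool => w.1 = b'))}) =
          if z.1 ≠ z.2 then (∏ i ∈ Finset.range n, ((A i).card : ℝ) / 3) / 18 else 0 := by
        intro z _
        rw [mu_indep _ (meas_ev A n z.1 z.2) n (ev_dep A n z.1 z.2), main A n z.1 z.2]
        have h2 : ∀ b' : Fin 3, (Finset.univ.filter
            (fun w : Fin 3 × Bool => w.1 = b')).card = 2 := by decide
        rw [h2 b']
        split_ifs
        · push_cast
          ring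
        · ring
      rw [Finset.sum_congr rfl h1, ← Finset.sum_filter, Finset.sum_const, cnt (A n) a' b',
        Finset.prod_range_succ]
      split_ifs
      · rw [nsmul_eq_mul]
        ring
      · simp
    · intro z _ w _ hzw
      refine Set.disjoint_left.2 (fun ω h1 h2 => hzw ?_)
      obtain ⟨⟨_, h3, h4⟩, _⟩ := h1
      obtain ⟨⟨_, h5, h6⟩, _⟩ := h2
      exact Prod.ext (h3.symm.trans h5) (h4.symm.trans h6)
    · intro z _
      refine (meas_ev A n z.1 z.2).inter ?_
      exact measurable_pi_apply (n + 1) (MeasurableSet.of_discrete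
        (s := ((Finset.univ.filter (fun w : Fin 3 × Bool => w.1 = b') : Finset (Fin 3 × Bool)) :
          Set (Fin 3 × Bool))))

private lemma main2 (A : ℕ → Finset (Fin 3)) (n : ℕ) :
    mu.real {ω | ∀ i < n, xx ω i ∈ A i} = ∏ i ∈ Finset.range n, ((A i).card : ℝ) / 3 := by
  have h1 : {ω : Sp | ∀ i < n, xx ω i ∈ A i} =
      ⋃ z ∈ (Finset.univ : Finset (Fin 3 × Fin 3)), ev A n z.1 z.2 := by
    ext ω
    simp [ev]
  rw [h1, measureReal_biUnion_finset]
  · rw [Finset.sum_congr rfl (fun z _ => main A n z.1 z.2), ← Finset.mul_sum]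
    have h2 : ∑ z : Fin 3 × Fin 3, (if z.1 ≠ z.2 then (1 / 6 : ℝ) else 0) = 1 := by
      rw [← Finset.sum_filter, Finset.sum_const]
      have : (Finset.univ.filter (fun z : Fin 3 × Fin 3 => z.1 ≠ z.2)).card = 6 := by decide
      rw [this]
      norm_num
    rw [h2, mul_one]
  · intro z _ w _ hzw
    refine Set.disjoint_left.2 (fun ω h1 h2 => hzw ?_)
    obtain ⟨_, h3, h4⟩ := h1
    obtain ⟨_, h5, h6⟩ := h2
    exact Prod.ext (h3.symm.trans h5) (h4.symm.trans h6)
  · intro z _
    exact meas_ev A n z.1 z.2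

private lemma xx_indep : iIndepFun (fun (t : ℕ) (ω : Sp) => xx ω t) mu := by
  classical
  have key : ∀ (S : Finset ℕ) (A : ℕ → Finset (Fin 3)),
      mu (⋂ i ∈ S, (fun ω : Sp => xx ω i) ⁻¹' (A i : Set (Fin 3))) =
      ENNReal.ofReal (∏ i ∈ S, ((A i).card : ℝ) / 3) := by
    intro S A
    obtain ⟨n, hn⟩ : ∃ n, S ⊆ Finset.range n :=
      ⟨S.sup id + 1, fun i hi => Finset.mem_range.2 (Nat.lt_succ_of_le (Finset.le_sup (f := id) hi))⟩
    let A' : ℕ → Finset (Fin 3) := fun i => if i ∈ S then A i else Finset.univ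
    have h1 : (⋂ i ∈ S, (fun ω : Sp => xx ω i) ⁻¹' (A i : Set (Fin 3))) =
        {ω : Sp | ∀ i < n, xx ω i ∈ A' i} := by
      ext ω
      simp only [Set.mem_iInter, Set.mem_preimage, Finset.mem_coe, Set.mem_setOf_eq, A']
      constructor
      · intro h i _
        by_cases hi : i ∈ S
        · simp only [hi, if_true]
          exact h i hi
        · simp only [hi, if_false, Finset.mem_univ]
      · intro h i hi
        have := h i (Finset.mem_range.1 (hn hi))
        simpa only [hi, if_true] using this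
    rw [h1, ← ENNReal.ofReal_toReal (measure_ne_top mu _), ← measureReal_def, main2]
    congr 1
    rw [← Finset.prod_subset hn (fun i _ hi => by simp [A', hi])]
    exact Finset.prod_congr rfl (fun i hi => by simp [A', hi])
  rw [iIndepFun_iff_measure_inter_preimage_eq_mul]
  intro S sets _
  let A : ℕ → Finset (Fin 3) := fun i => (Finset.univ.filter (fun c => c ∈ sets i))
  have hA : ∀ i, (A i : Set (Fin 3)) = sets i := fun i => by
    ext c
    simp [A]
  have h1 : ∀ i, mu ((fun ω : Sp => xx ω i) ⁻¹' sets i) =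
      ENNReal.ofReal (((A i).card : ℝ) / 3) := by
    intro i
    have h2 := key {i} A
    simpa [hA] using h2
  have h2 := key S A
  simp only [hA] at h2
  rw [h2, ENNReal.ofReal_prod_of_nonneg (fun i _ => by positivity)]
  exact Finset.prod_congr rfl (fun i _ => (h1 i).symm)

private lemma xx_law (t : ℕ) : mu {ω | xx ω t = 0} = ENNReal.ofReal (1 / 3) := by
  have h := main2 (fun i => if i = t then {0} else Finset.univ) (t + 1)
  have h1 : {ω : Sp | ∀ i < t + 1, xx ω i ∈
      (if i = t then ({0} : Finset (Fin 3)) else Finset.univ)} = {ω | xx ω t = 0} := by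
    ext ω
    simp only [Set.mem_setOf_eq]
    constructor
    · intro h
      simpa using h t (Nat.lt_succ_self t)
    · intro h i _
      by_cases hi : i = t
      · simp [hi, h]
      · simp [hi]
  rw [h1, Finset.prod_range_succ] at h
  rw [← ENNReal.ofReal_toReal (measure_ne_top mu _), ← measureReal_def, h]
  congr 1
  have h2 : ∏ i ∈ Finset.range t,
      (((if i = t then ({0} : Finset (Fin 3)) else Finset.univ).card : ℝ) / 3) = 1 := by
    refine Finset.prod_eq_one (fun i hi => ?_)
    have : i ≠ t := (Finset.mem_range.1 hi).ne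
    simp [this]
  rw [h2]
  simp

theorem p_L2 : Coupled 2 (1 / 3) := by
  have hd : Measurable (fun c : Fin 3 => decide (c = 0)) := Measurable.of_discrete
  have hy : iIndepFun (fun (i : ℕ) (ω : Sp) => (ω i).1) mu :=
    iIndepFun_infinitePi (P := fun _ : ℕ => m0) (X := fun _ ω => ω.1) (by fun_prop)
  refine ⟨Sp, inferInstance, mu, fun j t ω => if j = 0 then decide (xx ω t = 0)
    else decide ((ω t).1 = 0), ?_⟩
  refine ⟨inferInstance, ?_, ?_, ?_, ?_⟩
  · intro j t
    by_cases hj : j = 0
    · simp only [hj, if_true]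
      exact hd.comp (meas_xx t)
    · simp only [hj, if_false]
      exact hd.comp (measurable_fst.comp (measurable_pi_apply t))
  · intro j
    by_cases hj : j = 0
    · simp only [hj, if_true]
      exact xx_indep.comp (fun _ c => decide (c = 0)) (fun _ => hd)
    · simp only [hj, if_false]
      exact hy.comp (fun _ c => decide (c = 0)) (fun _ => hd)
  · intro j t
    by_cases hj : j = 0
    · simp only [hj, if_true, decide_eq_true_eq]
      exact xx_law t
    · simp only [hj, if_false, decide_eq_true_eq]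
      have h := mu_eval t (Finset.univ.filter (fun w : Fin 3 × Bool => w.1 = 0))
      have h1 : (Finset.univ.filter (fun w : Fin 3 × Bool => w.1 = 0)).card = 2 := by decide
      rw [h1] at h
      have h2 : {ω : Sp | ω t ∈ Finset.univ.filter (fun w : Fin 3 × Bool => w.1 = 0)} =
          {ω | (ω t).1 = 0} := by
        ext ω
        simp
      rw [h2] at h
      rw [← ENNReal.ofReal_toReal (measure_ne_top mu _), ← measureReal_def, h]
      congr 1
      norm_num
  · refine Filter.Eventually.of_forall (fun ω i j s t h1 h2 ⟨h3, h4⟩ => ?_)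
    fin_cases i <;> fin_cases j
    · simp at h1 h2
      omega
    · have hst : s = t := by
        simp at h1 h2
        omega
      subst hst
      simp at h3 h4
      exact xx_ne ω s (h3.trans h4.symm)
    · have hst : t = s + 1 := by
        simp at h1 h2
        omega
      subst hst
      simp at h3 h4
      exact xx_ne' ω s (h4.trans h3.symm)
    · simp at h1 h2
      omega

end Pool.Agent.PKA
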