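import Pool.Agent.PKA.Targets

set_option autoImplicit false

/-!
# 1-avoidance couplings of Bernoulli walkers (MP_f1618c_pr): the sequence of each walker
-/

open MeasureTheory ProbabilityTheory Filter Topology Finset

namespace Pool.Agent.PKA

private lemma ok0_none : ok0 none = 1 := rfl
private lemma ok1_none : ok1 none = 1 := rfl

private lemma val_cons (m : Mdl) (c : Option Bool) (l : List (Option Bool)) (s : St) :
    m.val (c :: l) s = m.step c (m.val l) s := rfl

private lemma step_W (m : Mdl) (c : Option Bool) (g : St → ℝ) (d r : ℕ) :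
    m.step c g (St.W (d + 1) r) = ok0 c * g (St.W d r) := rfl

private lemma step_W0 (m : Mdl) (c : Option Bool) (g : St → ℝ) (r : ℕ) :
    m.step c g (St.W 0 r) = ok1 c * m.aft g r := rfl

private lemma step_B (m : Mdl) (c : Option Bool) (g : St → ℝ) (d : ℕ) :
    m.step c g (St.B (d + 1)) = ok0 c * g (St.B d) := rfl

private lemma val_rep_W (m : Mdl) (l : List (Option Bool)) (d r : ℕ) : ∀ n : ℕ,
    m.val (List.replicate n none ++ l) (St.W (n + d) r) = m.val l (St.W d r)
  | 0 => by simp
  | n + 1 => by
    rw [List.replicate_succ, List.cons_append, val_cons,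
      show n + 1 + d = (n + d) + 1 by ring, step_W, ok0_none, one_mul, val_rep_W m l d r n]

private lemma val_rep_B (m : Mdl) (l : List (Option Bool)) (d : ℕ) : ∀ n : ℕ,
    m.val (List.replicate n none ++ l) (St.B (n + d)) = m.val l (St.B d)
  | 0 => by simp
  | n + 1 => by
    rw [List.replicate_succ, List.cons_append, val_cons,
      show n + 1 + d = (n + d) + 1 by ring, step_B, ok0_none, one_mul, val_rep_B m l d n]

private lemma rep_split (a b : ℕ) (l : List (Option Bool)) :
    List.replicate (a + b) none ++ l = List.replicate a none ++ (List.replicate b none ++ l) := by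
  rw [List.replicate_add, List.append_assoc]

private lemma val_B0 (m : Mdl) (hb : Basic m) (l : List (Option Bool)) :
    m.val l (St.B 0) = m.val l (St.S 0) := by
  cases l with
  | nil => exact hb.E0.symm
  | cons c l => rfl

private lemma aft_congr (m : Mdl) (g₁ g₂ : St → ℝ) (h : ∀ s, OkSt m s → g₁ s = g₂ s) :
    ∀ r ≤ m.H, m.aft g₁ r = m.aft g₂ r := by
  intro r hr
  cases r with
  | zero => exact h _ trivial
  | succ r =>
    show m.q r * g₁ (St.W m.k r) + ∑ s ∈ Icc 1 m.N, m.pi r s * g₁ (St.W (s * m.k - 1) 0) =
      m.q r * g₂ (St.W m.k r) + ∑ s ∈ Icc 1 m.N, m.pi r s * g₂ (St.W (s * m.k - 1) 0)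
    rw [h (St.W m.k r) (show r ≤ m.H by omega)]
    congr 1
    refine Finset.sum_congr rfl fun s _ => ?_
    rw [h (St.W (s * m.k - 1) 0) (Nat.zero_le _)]

private lemma val_rep (m : Mdl) (hb : Basic m) (hcons : T_CONS) (s : St) (hs : OkSt m s) :
    ∀ n : ℕ, m.val (List.replicate n none) s = m.base s
  | 0 => rfl
  | n + 1 => by
    rw [List.replicate_succ', (hcons m hb).2.1 _ s hs, val_rep m hb hcons s hs n]

private lemma aft_rep (m : Mdl) (hb : Basic m) (hcons : T_CONS) (n r : ℕ) (hr : r ≤ m.H) :
    m.aft (m.val (List.replicate n none)) r = 1 := by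
  rw [aft_congr m _ m.base (fun s hs => val_rep m hb hcons s hs n) r hr]
  exact (hcons m hb).1 r hr

private lemma zw_nil (p : ℝ) (c : ℕ) : zw p c [] = 1 := by
  cases c with
  | zero => simp [zw, wt]
  | succ c => rfl

private lemma sum_nu (m : Mdl) (p : ℝ) (hb : Basic m) (hl : Law m p) (r : ℕ) (hr : r ≤ m.H) :
    ∑ c ∈ range (m.N + 2), m.nu r c = 1 := by
  cases r with
  | zero =>
    simp only [hl.nu0]
    rw [Finset.sum_ite_eq' (range (m.N + 2)) 1 (fun _ => (1 : ℝ))]
    simp
  | succ r =>
    have hr' : r < m.H := by omega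
    have h1 := hl.own r hr' []
    have h2 : ∑ s ∈ Icc 1 m.N, m.pi r s * os p s [] = ∑ s ∈ Icc 1 m.N, m.pi r s := by
      refine Finset.sum_congr rfl fun s hs => ?_
      obtain ⟨hs1, _⟩ := Finset.mem_Icc.1 hs
      obtain ⟨t, rfl⟩ : ∃ t, s = t + 1 := ⟨s - 1, by omega⟩
      show m.pi r (t + 1) * os p (t + 1) [] = _
      have : os p (t + 1) [] = 1 := by cases t <;> rfl
      rw [this, mul_one]
    rw [h2] at h1
    simp only [zw_nil, mul_one] at h1
    have h3 : wt p [] = 1 := by simp [wt]
    rw [h3] at h1
    have h4 := hb.mass r hr'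
    rw [Finset.sum_range_succ', hl.nuz r hr', add_zero]
    simp only [hl.nus r hr']
    rw [Finset.sum_add_distrib, ← Finset.mul_sum]
    have h5 : ∑ c ∈ range (m.N + 1), m.pi r c = ∑ s ∈ Icc 1 m.N, m.pi r s := by
      rw [Finset.sum_range_succ', hl.pz r hr', add_zero, Finset.range_eq_Ico,
        Finset.sum_Ico_add' (fun x => m.pi r x) 0 m.N 1]
      rfl
    have h6 : ∑ c ∈ range (m.N + 2), m.nu r c = ∑ c ∈ range (m.N + 1), m.nu r c := by
      rw [Finset.sum_range_succ, hl.nuN r hr', add_zero]
    rw [h6] at h1
    rw [h5]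
    linarith

/-- All statements for one pattern. -/
private structure AllP (m : Mdl) (p : ℝ) (a : List (Option Bool)) : Prop where
  A : ∀ j, m.val (List.replicate j none ++ spread m.k a) (St.S 0) = wt p a
  C0 : ∀ i, 1 ≤ i → i ≤ m.k - 1 →
    m.aft (m.val (List.replicate (m.k - 1 - i) none ++ spread m.k a)) 0 = zw p 1 a
  D : ∀ s i, i + 1 ≤ m.k - 1 → m.val (spread m.k a) (St.W (s * m.k + (i + 1)) 0) = zw p (s + 2) a
  C : ∀ r i, r ≤ m.H → 1 ≤ i → i + r ≤ m.k - 1 →
    m.aft (m.val (List.replicate (m.k - 1 - i) none ++ spread m.k a)) r =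
      ∑ c ∈ range (m.N + 2), m.nu r c * zw p c a
  O : ∀ s, m.val (List.replicate (m.k - 1) none ++ spread m.k a) (St.W ((s + 1) * m.k - 1) 0) =
    os p (s + 1) a
  B : ∀ r ≤ m.H, m.aft (m.val (List.replicate (m.k - 1) none ++ spread m.k a)) r = wt p a

private lemma allP_nil (m : Mdl) (p : ℝ) (hb : Basic m) (hl : Law m p) (hcons : T_CONS) :
    AllP m p [] := by
  have hw : wt p [] = 1 := by simp [wt]
  have e : ∀ n, List.replicate n none ++ spread m.k [] = List.replicate n (none : Option Bool) :=
    fun n => by simp [spread]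
  refine ⟨?_, ?_, ?_, ?_, ?_, ?_⟩
  · intro j
    rw [e, val_rep m hb hcons (St.S 0) trivial, hw]
    exact hb.E0
  · intro i _ _
    rw [e, aft_rep m hb hcons _ _ (Nat.zero_le _), zw_nil]
  · intro s i _
    rw [zw_nil]
    rfl
  · intro r i hr _ _
    rw [e, aft_rep m hb hcons _ _ hr]
    simp only [zw_nil, mul_one]
    rw [sum_nu m p hb hl r hr]
  · intro s
    rw [e, val_rep m hb hcons _ (Nat.zero_le _)]
    cases s <;> rfl
  · intro r hr
    rw [e, aft_rep m hb hcons _ _ hr, hw]

private lemma allP_cons (m : Mdl) (p : ℝ) (hb : Basic m) (hl : Law m p)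
    (hadd : T_ADD) (hfac : T_FAC) (x : Option Bool) (a : List (Option Bool))
    (ih : AllP m p a) : AllP m p (x :: a) := by
  have hk := hb.hk
  have hH := hl.hH
  have hsp : spread m.k (x :: a) = x :: (List.replicate (m.k - 1) none ++ spread m.k a) := rfl
  -- A
  have hA : ∀ j, m.val (List.replicate j none ++ spread m.k (x :: a)) (St.S 0) = wt p (x :: a) := by
    intro j
    have hnone : m.val (List.replicate j none ++ none ::
        (List.replicate (m.k - 1) none ++ spread m.k a)) (St.S 0) = wt p a := by
      have : List.replicate j (none : Option Bool) ++ none ::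
          (List.replicate (m.k - 1) none ++ spread m.k a) =
          List.replicate (j + m.k) none ++ spread m.k a := by
        obtain ⟨k', hk'⟩ : ∃ k', m.k = k' + 1 := ⟨m.k - 1, by omega⟩
        rw [hk', Nat.add_sub_cancel, rep_split j (k' + 1), List.replicate_succ (n := k'),
          List.cons_append]
      rw [this, ih.A]
    have htrue : m.val (List.replicate j none ++ some true ::
        (List.replicate (m.k - 1) none ++ spread m.k a)) (St.S 0) = p * wt p a := by
      rw [hfac m hb _ (wt p a) ih.B j (St.S 0) trivial, hl.uni j, mul_comm]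
    rw [hsp]
    have hw : wt p (x :: a) = bw p x * wt p a := by simp [wt]
    rw [hw]
    match x with
    | none => rw [hnone]; simp [bw]
    | some true => rw [htrue]; rfl
    | some false =>
      have h1 := hadd m (List.replicate j none) (List.replicate (m.k - 1) none ++ spread m.k a)
        (St.S 0)
      rw [hnone, htrue] at h1
      show _ = (1 - p) * wt p a
      linarith
  -- C0
  have hC0 : ∀ i, 1 ≤ i → i ≤ m.k - 1 →
      m.aft (m.val (List.replicate (m.k - 1 - i) none ++ spread m.k (x :: a))) 0 =
        zw p 1 (x :: a) := by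
    intro i hi hi2
    obtain ⟨i', rfl⟩ : ∃ i', i = i' + 1 := ⟨i - 1, by omega⟩
    show m.val (List.replicate (m.k - 1 - (i' + 1)) none ++ spread m.k (x :: a))
      (St.B (m.k - 1)) = _
    have e1 : St.B (m.k - 1) = St.B ((m.k - 1 - (i' + 1)) + (i' + 1)) := by
      congr 1
      omega
    rw [e1, val_rep_B, hsp, val_cons, step_B]
    have e2 : List.replicate (m.k - 1) (none : Option Bool) ++ spread m.k a =
        List.replicate i' none ++ (List.replicate (m.k - 1 - i') none ++ spread m.k a) := by
      rw [← rep_split]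
      congr 2
      omega
    have e3 : m.val (List.replicate (m.k - 1) none ++ spread m.k a) (St.B i') = wt p a := by
      rw [e2]
      have := val_rep_B m (List.replicate (m.k - 1 - i') none ++ spread m.k a) 0 i'
      rw [add_zero] at this
      rw [this, val_B0 m hb, ih.A]
    rw [e3]
    rfl
  -- D
  have hD : ∀ s i, i + 1 ≤ m.k - 1 →
      m.val (spread m.k (x :: a)) (St.W (s * m.k + (i + 1)) 0) = zw p (s + 2) (x :: a) := by
    intro s i hi
    rw [hsp, val_cons, ← add_assoc, step_W]
    show _ = ok0 x * zw p (s + 1) a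
    congr 1
    cases s with
    | zero =>
      have e2 : List.replicate (m.k - 1) (none : Option Bool) ++ spread m.k a =
          List.replicate i none ++ (none ::
            (List.replicate (m.k - 1 - (i + 1)) none ++ spread m.k a)) := by
        rw [← List.cons_append, ← List.replicate_succ, ← rep_split]
        congr 2
        omega
      rw [e2, zero_mul, zero_add]
      have := val_rep_W m (none :: (List.replicate (m.k - 1 - (i + 1)) none ++ spread m.k a)) 0 0 i
      rw [add_zero] at this
      rw [this, val_cons, step_W0, ok1_none, one_mul]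
      exact ih.C0 (i + 1) (by omega) hi
    | succ s =>
      have e1 : (s + 1) * m.k + i = (m.k - 1) + (s * m.k + (i + 1)) := by
        rw [Nat.succ_mul]
        omega
      rw [e1, val_rep_W, ih.D s i hi]
  -- C
  have hC : ∀ r i, r ≤ m.H → 1 ≤ i → i + r ≤ m.k - 1 →
      m.aft (m.val (List.replicate (m.k - 1 - i) none ++ spread m.k (x :: a))) r =
        ∑ c ∈ range (m.N + 2), m.nu r c * zw p c (x :: a) := by
    intro r i hr hi hir
    cases r with
    | zero =>
      rw [hC0 i hi (by omega)]
      simp only [hl.nu0]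
      rw [Finset.sum_eq_single 1]
      · simp
      · intro c _ hc
        simp [hc]
      · intro h
        exact absurd (Finset.mem_range.2 (by omega)) h
    | succ r =>
      have hr' : r < m.H := by omega
      show m.q r * m.val (List.replicate (m.k - 1 - i) none ++ spread m.k (x :: a)) (St.W m.k r) +
        ∑ s ∈ Icc 1 m.N, m.pi r s *
          m.val (List.replicate (m.k - 1 - i) none ++ spread m.k (x :: a)) (St.W (s * m.k - 1) 0) = _
      have h1 : m.val (List.replicate (m.k - 1 - i) none ++ spread m.k (x :: a)) (St.W m.k r) =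
          ok0 x * ∑ c ∈ range (m.N + 2), m.nu r c * zw p c a := by
        have e1 : St.W m.k r = St.W ((m.k - 1 - i) + (i + 1)) r := by
          congr 1
          omega
        rw [e1, val_rep_W, hsp, val_cons, step_W]
        congr 1
        have e2 : List.replicate (m.k - 1) (none : Option Bool) ++ spread m.k a =
            List.replicate i none ++ (none ::
              (List.replicate (m.k - 1 - (i + 1)) none ++ spread m.k a)) := by
          rw [← List.cons_append, ← List.replicate_succ, ← rep_split]
          congr 2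
          omega
        rw [e2]
        have := val_rep_W m (none :: (List.replicate (m.k - 1 - (i + 1)) none ++ spread m.k a))
          0 r i
        rw [add_zero] at this
        rw [this, val_cons, step_W0, ok1_none, one_mul]
        exact ih.C r (i + 1) (by omega) (by omega) (by omega)
      have h2 : ∀ s ∈ Icc 1 m.N, m.pi r s *
          m.val (List.replicate (m.k - 1 - i) none ++ spread m.k (x :: a))
            (St.W (s * m.k - 1) 0) = m.pi r s * zw p (s + 1) (x :: a) := by
        intro s hs
        obtain ⟨hs1, _⟩ := Finset.mem_Icc.1 hs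
        obtain ⟨t, rfl⟩ : ∃ t, s = t + 1 := ⟨s - 1, by omega⟩
        congr 1
        obtain ⟨i', rfl⟩ : ∃ i', i = i' + 1 := ⟨i - 1, by omega⟩
        have e1 : (t + 1) * m.k - 1 = (m.k - 1 - (i' + 1)) + (t * m.k + (i' + 1)) := by
          rw [Nat.succ_mul]
          omega
        rw [e1, val_rep_W, hD t i' (by omega)]
      rw [h1, Finset.sum_congr rfl h2]
      -- compare the sums
      rw [Finset.sum_range_succ' (fun c => m.nu (r + 1) c * zw p c (x :: a)) (m.N + 1),
        hl.nuz r hr', zero_mul, add_zero]
      simp only [hl.nus r hr']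
      have h3 : ∀ c, (m.q r * m.nu r c + m.pi r c) * zw p (c + 1) (x :: a) =
          m.q r * (ok0 x * (m.nu r c * zw p c a)) + m.pi r c * zw p (c + 1) (x :: a) := by
        intro c
        show (m.q r * m.nu r c + m.pi r c) * (ok0 x * zw p c a) =
          m.q r * (ok0 x * (m.nu r c * zw p c a)) + m.pi r c * (ok0 x * zw p c a)
        ring
      simp only [h3]
      rw [Finset.sum_add_distrib, ← Finset.mul_sum, ← Finset.mul_sum]
      congr 1
      · rw [Finset.sum_range_succ, hl.nuN r hr', zero_mul, add_zero]
      · rw [Finset.sum_range_succ' (fun c => m.pi r c * zw p (c + 1) (x :: a)) m.N,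
          hl.pz r hr', zero_mul, add_zero, Finset.range_eq_Ico,
          Finset.sum_Ico_add' (fun c => m.pi r c * zw p (c + 1) (x :: a)) 0 m.N 1]
        rfl
  -- O
  have hO : ∀ s, m.val (List.replicate (m.k - 1) none ++ spread m.k (x :: a))
      (St.W ((s + 1) * m.k - 1) 0) = os p (s + 1) (x :: a) := by
    intro s
    cases s with
    | zero =>
      have e1 : (0 + 1) * m.k - 1 = (m.k - 1) + 0 := by omega
      rw [e1, val_rep_W, hsp, val_cons, step_W0, ih.B 0 (Nat.zero_le _)]
      rfl
    | succ s =>
      have e1 : (s + 1 + 1) * m.k - 1 = (m.k - 1) + (((s + 1) * m.k - 1) + 1) := by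
        rw [Nat.succ_mul]
        have : m.k ≤ (s + 1) * m.k := Nat.le_mul_of_pos_left _ (by omega)
        omega
      rw [e1, val_rep_W, hsp, val_cons, step_W, ih.O s]
      rfl
  refine ⟨hA, hC0, hD, hC, hO, ?_⟩
  -- B
  intro r hr
  cases r with
  | zero =>
    show m.val (List.replicate (m.k - 1) none ++ spread m.k (x :: a)) (St.B (m.k - 1)) = _
    have := val_rep_B m (spread m.k (x :: a)) 0 (m.k - 1)
    rw [add_zero] at this
    rw [this, val_B0 m hb]
    have h0 := hA 0
    rwa [List.replicate_zero, List.nil_append] at h0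
  | succ r =>
    have hr' : r < m.H := by omega
    rw [hl.own r hr' (x :: a)]
    show m.q r * m.val (List.replicate (m.k - 1) none ++ spread m.k (x :: a)) (St.W m.k r) +
      ∑ s ∈ Icc 1 m.N, m.pi r s *
        m.val (List.replicate (m.k - 1) none ++ spread m.k (x :: a)) (St.W (s * m.k - 1) 0) = _
    have h1 : m.val (List.replicate (m.k - 1) none ++ spread m.k (x :: a)) (St.W m.k r) =
        ∑ c ∈ range (m.N + 2), m.nu r c * zw p (c + 1) (x :: a) := by
      have e1 : St.W m.k r = St.W ((m.k - 1) + (0 + 1)) r := by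
        congr 1
        omega
      rw [e1, val_rep_W, hsp, val_cons, step_W]
      have e2 : List.replicate (m.k - 1) (none : Option Bool) ++ spread m.k a =
          none :: (List.replicate (m.k - 1 - 1) none ++ spread m.k a) := by
        rw [← List.cons_append, ← List.replicate_succ]
        congr 2
        omega
      rw [e2, val_cons, step_W0, ok1_none, one_mul, ih.C r 1 (by omega) le_rfl (by omega),
        Finset.mul_sum]
      refine Finset.sum_congr rfl fun c _ => ?_
      show _ = m.nu r c * (ok0 x * zw p c a)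
      ring
    have h2 : ∀ s ∈ Icc 1 m.N, m.pi r s *
        m.val (List.replicate (m.k - 1) none ++ spread m.k (x :: a)) (St.W (s * m.k - 1) 0) =
          m.pi r s * os p s (x :: a) := by
      intro s hs
      obtain ⟨hs1, _⟩ := Finset.mem_Icc.1 hs
      obtain ⟨t, rfl⟩ : ∃ t, s = t + 1 := ⟨s - 1, by omega⟩
      rw [hO t]
    rw [h1, Finset.sum_congr rfl h2]
    ring

/-- LAB. -/
theorem p_LAB (hadd : T_ADD) (hcons : T_CONS) (hfac : T_FAC) : T_LAB := by
  intro m p hb hl a
  have : AllP m p a := by
    induction a with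
    | nil => exact allP_nil m p hb hl hcons
    | cons x a ih => exact allP_cons m p hb hl hadd hfac x a ih
  exact this.A

end Pool.Agent.PKA
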