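import Pool.Agent.PKA.Targets

/-!
# MEAS: a measure on sequences with given cylinder probabilities
-/

set_option autoImplicit false

open MeasureTheory Set

namespace Pool.Agent.PKA

/-- The weight of a reversed word. -/
private def wr (W : List Bool → ℝ) (r : List Bool) : ℝ := W r.reverse

/-- The left end point of the interval of a reversed word. -/
private def lend (W : List Bool → ℝ) : List Bool → ℝ
  | [] => 0
  | b :: r => lend W r + if b then 0 else wr W (true :: r)

/-- The reversed word of the first digits of `u`. -/
private noncomputable def rwd (W : List Bool → ℝ) : ℕ → ℝ → List Bool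
  | 0, _ => []
  | n + 1, u => (open Classical in decide (u < lend W (rwd W n u) + wr W (true :: rwd W n u))) ::
      rwd W n u

/-- The digits of `u`. -/
private noncomputable def dgt (W : List Bool → ℝ) (u : ℝ) (n : ℕ) : Bool :=
  open Classical in decide (u < lend W (rwd W n u) + wr W (true :: rwd W n u))

private lemma rwd_succ (W : List Bool → ℝ) (n : ℕ) (u : ℝ) :
    rwd W (n + 1) u = dgt W u n :: rwd W n u := rfl

private lemma rwd_eq (W : List Bool → ℝ) (n : ℕ) (u : ℝ) :
    rwd W n u = ((List.range n).map (dgt W u)).reverse := by
  induction n with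
  | zero => rfl
  | succ n ih =>
    rw [rwd_succ, ih, List.range_succ, List.map_append, List.reverse_append]
    rfl

private lemma cyl_iff (W : List Bool → ℝ) (l : List Bool) (u : ℝ) :
    (∀ (i : ℕ) (h : i < l.length), dgt W u i = l[i]) ↔ rwd W l.length u = l.reverse := by
  rw [rwd_eq, List.reverse_inj]
  constructor
  · intro h
    apply List.ext_getElem
    · simp
    · intro i h1 h2
      simp only [List.getElem_map, List.getElem_range]
      exact h i h2
  · intro h i hi
    have h1 : ((List.range l.length).map (dgt W u))[i]'(by simpa using hi) = l[i] := by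
      simp only [h]
    rw [← h1]
    simp

private lemma int_iff (W : List Bool → ℝ) (h0 : ∀ l, 0 ≤ W l) (h1 : W [] = 1)
    (hW : ∀ l, W l = W (l ++ [true]) + W (l ++ [false])) {u : ℝ} (hu : u ∈ Ico (0 : ℝ) 1)
    (r : List Bool) :
    rwd W r.length u = r ↔ u ∈ Ico (lend W r) (lend W r + wr W r) := by
  induction r with
  | nil =>
    simp only [List.length_nil, rwd, lend, wr, List.reverse_nil, h1, zero_add, true_iff]
    exact hu
  | cons b r ih =>
    have hr : wr W r = wr W (true :: r) + wr W (false :: r) := by
      unfold wr
      rw [List.reverse_cons, List.reverse_cons]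
      exact hW _
    have ht : 0 ≤ wr W (true :: r) := h0 _
    have hf : 0 ≤ wr W (false :: r) := h0 _
    rw [List.length_cons, rwd_succ, List.cons.injEq]
    have key : (dgt W u r.length = b ∧ rwd W r.length u = r) ↔
        (decide (u < lend W r + wr W (true :: r)) = b ∧ rwd W r.length u = r) := by
      constructor
      · rintro ⟨h2, h3⟩
        refine ⟨?_, h3⟩
        unfold dgt at h2
        rw [h3] at h2
        rw [← h2]
      · rintro ⟨h2, h3⟩
        refine ⟨?_, h3⟩
        unfold dgt
        rw [h3, ← h2]
    rw [key, ih, mem_Ico, mem_Ico]
    cases b with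
    | true =>
      simp only [decide_eq_true_eq, lend, if_true, add_zero]
      constructor
      · rintro ⟨h2, h3, h4⟩
        exact ⟨h3, h2⟩
      · rintro ⟨h2, h3⟩
        exact ⟨h3, h2, by linarith⟩
    | false =>
      simp only [decide_eq_false_iff_not, not_lt, lend, Bool.false_eq_true, if_false]
      constructor
      · rintro ⟨h2, h3, h4⟩
        exact ⟨h2, by linarith⟩
      · rintro ⟨h2, h3⟩
        exact ⟨h2, by linarith, by linarith⟩

private lemma meas_rwd (W : List Bool → ℝ) (n : ℕ) :
    ∀ r : List Bool, MeasurableSet {u : ℝ | rwd W n u = r} := by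
  induction n with
  | zero =>
    intro r
    have : {u : ℝ | rwd W 0 u = r} = {_u : ℝ | [] = r} := rfl
    rw [this]
    exact MeasurableSet.const _
  | succ n ih =>
    intro r
    cases r with
    | nil =>
      have : {u : ℝ | rwd W (n + 1) u = []} = ∅ := by
        ext u
        simp [rwd_succ]
      rw [this]
      exact MeasurableSet.empty
    | cons b r =>
      have : {u : ℝ | rwd W (n + 1) u = b :: r} =
          {u : ℝ | rwd W n u = r} ∩ {u : ℝ | (u < lend W r + wr W (true :: r)) ↔ (b = true)} := by
        ext u
        simp only [mem_ofPred_eq, mem_inter_iff, rwd_succ, List.cons.injEq]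
        constructor
        · rintro ⟨h2, h3⟩
          refine ⟨h3, ?_⟩
          unfold dgt at h2
          rw [h3] at h2
          rw [← h2]
          simp
        · rintro ⟨h3, h2⟩
          refine ⟨?_, h3⟩
          unfold dgt
          rw [h3]
          cases b <;> simp_all
      rw [this]
      refine (ih r).inter ?_
      cases b with
      | true =>
        have e : {u : ℝ | (u < lend W r + wr W (true :: r)) ↔ (true = true)} =
            Iio (lend W r + wr W (true :: r)) := by
          ext u
          simp
        rw [e]
        exact measurableSet_Iio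
      | false =>
        have e : {u : ℝ | (u < lend W r + wr W (true :: r)) ↔ (false = true)} =
            Ici (lend W r + wr W (true :: r)) := by
          ext u
          simp
        rw [e]
        exact measurableSet_Ici

private lemma meas_dgt (W : List Bool → ℝ) : Measurable (dgt W) := by
  rw [measurable_pi_iff]
  intro n
  apply measurable_to_bool
  have : (fun u => dgt W u n) ⁻¹' {true} = ⋃ r : List Bool, {u : ℝ | rwd W (n + 1) u = true :: r} := by
    ext u
    simp only [mem_preimage, mem_singleton_iff, mem_iUnion, mem_ofPred_eq, rwd_succ,
      List.cons.injEq]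
    constructor
    · intro h
      exact ⟨rwd W n u, h, rfl⟩
    · rintro ⟨r, h, -⟩
      exact h
  rw [this]
  exact MeasurableSet.iUnion (fun r => meas_rwd W (n + 1) (true :: r))

/-- MEAS -/
theorem p_MEAS : T_MEAS := by
  intro W h0 h1 hW
  refine ⟨(volume.restrict (Ico (0 : ℝ) 1)).map (dgt W), ?_, ?_⟩
  · have : IsProbabilityMeasure (volume.restrict (Ico (0 : ℝ) 1)) := by
      refine ⟨?_⟩
      rw [Measure.restrict_apply MeasurableSet.univ, univ_inter, Real.volume_Ico]
      simp
    exact Measure.isProbabilityMeasure_map (meas_dgt W).aemeasurable
  · intro l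
    have hcyl : MeasurableSet {z : ℕ → Bool | ∀ (i : ℕ) (h : i < l.length), z i = l[i]} := by
      have : {z : ℕ → Bool | ∀ (i : ℕ) (h : i < l.length), z i = l[i]} =
          ⋂ (i : ℕ) (h : i < l.length), {z : ℕ → Bool | z i = l[i]} := by
        ext z
        simp
      rw [this]
      refine MeasurableSet.iInter (fun i => MeasurableSet.iInter (fun h => ?_))
      have hm : Measurable (fun z : ℕ → Bool => z i) := measurable_pi_apply i
      exact hm (measurableSet_singleton l[i])
    rw [Measure.map_apply (meas_dgt W) hcyl, Measure.restrict_apply ((meas_dgt W) hcyl)]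
    have hset : dgt W ⁻¹' {z : ℕ → Bool | ∀ (i : ℕ) (h : i < l.length), z i = l[i]} ∩
        Ico (0 : ℝ) 1 = Ico (lend W l.reverse) (lend W l.reverse + W l) ∩ Ico (0 : ℝ) 1 := by
      ext u
      simp only [mem_inter_iff, mem_preimage, mem_ofPred_eq]
      refine and_congr_left ?_
      intro hu
      rw [cyl_iff]
      have h2 := int_iff W h0 h1 hW hu l.reverse
      rw [List.length_reverse] at h2
      rw [h2]
      unfold wr
      rw [List.reverse_reverse]
    rw [hset]
    -- the interval is contained in `[0, 1)`
    have hsub : ∀ r : List Bool, 0 ≤ lend W r ∧ lend W r + wr W r ≤ 1 := by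
      intro r
      induction r with
      | nil => simp [lend, wr, h1]
      | cons b r ih =>
        have hr : wr W r = wr W (true :: r) + wr W (false :: r) := by
          unfold wr
          rw [List.reverse_cons, List.reverse_cons]
          exact hW _
        have ht : 0 ≤ wr W (true :: r) := h0 _
        have hf : 0 ≤ wr W (false :: r) := h0 _
        cases b with
        | true =>
          simp only [lend, if_true, add_zero]
          exact ⟨ih.1, by linarith⟩
        | false =>
          simp only [lend, Bool.false_eq_true, if_false]
          exact ⟨by linarith, by linarith⟩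
    have h3 := hsub l.reverse
    have h4 : wr W l.reverse = W l := by unfold wr; rw [List.reverse_reverse]
    rw [h4] at h3
    have h5 : Ico (lend W l.reverse) (lend W l.reverse + W l) ∩ Ico (0 : ℝ) 1 =
        Ico (lend W l.reverse) (lend W l.reverse + W l) := by
      apply inter_eq_left.2
      intro u hu
      exact ⟨h3.1.trans hu.1, lt_of_lt_of_le hu.2 h3.2⟩
    rw [h5, Real.volume_Ico]
    congr 1
    ring

end Pool.Agent.PKA

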