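import Pool.Agent.PKA.Targets

set_option autoImplicit false

/-!
# PKA: the compensation law
-/

open Finset

namespace Pool.Agent.PKA

namespace NU_

/-- the geometric sum -/
theorem geom (p t : ℝ) (hpt : p * t = t - 1) (n c : ℕ) (hc : c < n) :
    p * ∑ s ∈ Icc 1 n, (if s < c + 2 then t ^ (c + 2 - s) else 0) = t ^ (c + 1) - 1 := by
  have h1 : ∑ s ∈ Icc 1 n, (if s < c + 2 then t ^ (c + 2 - s) else 0) =
      ∑ s ∈ Icc 1 (c + 1), t ^ (c + 2 - s) := by
    rw [← sum_subset (s₁ := Icc 1 (c + 1)) (s₂ := Icc 1 n)]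
    · apply sum_congr rfl
      intro s hs
      rw [mem_Icc] at hs
      rw [if_pos (by omega)]
    · intro s hs
      rw [mem_Icc] at hs ⊢
      omega
    · intro s hs hs2
      rw [mem_Icc] at hs hs2
      rw [if_neg (by omega)]
  have h2 : Icc 1 (c + 1) = Ico 1 (c + 2) := by
    ext s
    rw [mem_Icc, mem_Ico]
    omega
  rw [h1, h2, sum_Ico_eq_sum_range, mul_sum]
  have h3 : ∀ i ∈ range (c + 2 - 1), p * t ^ (c + 2 - (1 + i)) =
      t ^ (c + 1 - i) - t ^ (c + 1 - (i + 1)) := by
    intro i hi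
    rw [mem_range] at hi
    have e1 : c + 2 - (1 + i) = (c - i) + 1 := by omega
    have e2 : c + 1 - i = (c - i) + 1 := by omega
    have e3 : c + 1 - (i + 1) = c - i := by omega
    rw [e1, e2, e3, pow_succ]
    linear_combination (t ^ (c - i)) * hpt
  rw [sum_congr rfl h3, sum_range_sub' (fun i => t ^ (c + 1 - i))]
  have e4 : c + 1 - (c + 2 - 1) = 0 := by omega
  rw [e4, pow_zero, Nat.sub_zero]

/-- the step -/
theorem step (p : ℝ) (hp : 0 < p) (hp1 : p < 1) (ν : ℕ → ℝ) (n : ℕ) (hn : 1 ≤ n)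
    (h0 : ∀ c, 0 ≤ ν c) (hz : ν 0 = 0) (hs : ∑ c ∈ range n, ν c = 1) :
    0 < qOf p ν n ∧ qOf p ν n ≤ 1 ∧ (1 - p) ^ n ≤ qOf p ν n ∧ (∀ s, 0 ≤ piOf p ν n s) ∧
    piOf p ν n 0 = 0 ∧ (∀ s, n + 1 ≤ s → piOf p ν n s = 0) ∧
    (qOf p ν n + ∑ s ∈ Icc 1 n, piOf p ν n s = 1) ∧
    (∀ s, 1 ≤ s → p * (1 - p) ^ (s - 1) = piOf p ν n s +
      qOf p ν n * ∑ c ∈ range n, if c + 2 ≤ s then ν c * (p * (1 - p) ^ (s - 2 - c)) else 0) ∧
    qOf p ν n * ∑ c ∈ range n, ν c * ((1 - p)⁻¹) ^ (c + 1) = 1 := by
  have h1p : 0 < 1 - p := by linarith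
  set t := (1 - p)⁻¹ with ht
  have ht0 : 0 < t := inv_pos.2 h1p
  have ht1 : 1 ≤ t := by
    rw [ht, one_le_inv₀ h1p]
    linarith
  have htp : (1 - p) * t = 1 := mul_inv_cancel₀ h1p.ne'
  have hpt : p * t = t - 1 := by linarith
  set D := ∑ c ∈ range n, ν c * t ^ c with hD
  have hq : qOf p ν n = (1 - p) / D := rfl
  have hDl : t ≤ D := by
    calc t = ∑ c ∈ range n, ν c * t := by rw [← sum_mul, hs, one_mul]
      _ ≤ D := by
          apply sum_le_sum
          intro c _
          rcases Nat.eq_zero_or_pos c with h | h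
          · rw [h, hz, zero_mul, zero_mul]
          · exact mul_le_mul_of_nonneg_left (le_self_pow₀ ht1 h.ne') (h0 c)
  have hDu : D ≤ t ^ (n - 1) := by
    calc D ≤ ∑ c ∈ range n, ν c * t ^ (n - 1) := by
          apply sum_le_sum
          intro c hc
          rw [mem_range] at hc
          exact mul_le_mul_of_nonneg_left (pow_le_pow_right₀ ht1 (by omega)) (h0 c)
      _ = t ^ (n - 1) := by rw [← sum_mul, hs, one_mul]
  have hD0 : 0 < D := lt_of_lt_of_le ht0 hDl
  have hq0 : 0 < qOf p ν n := by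
    rw [hq]
    positivity
  have hqD : qOf p ν n * D = 1 - p := by
    rw [hq, div_mul_cancel₀ _ hD0.ne']
  have hq1 : qOf p ν n ≤ 1 := by
    rw [hq, div_le_one hD0]
    linarith
  have hqt : qOf p ν n * (t * D) = 1 := by
    rw [mul_left_comm, hqD, mul_comm, htp]
  have hlast : qOf p ν n * ∑ c ∈ range n, ν c * t ^ (c + 1) = 1 := by
    have e1 : ∑ c ∈ range n, ν c * t ^ (c + 1) = t * D := by
      rw [hD, mul_sum]
      apply sum_congr rfl
      intro c _
      rw [pow_succ]
      ring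
    rw [e1, hqt]
  refine ⟨hq0, hq1, ?_, ?_, ?_, ?_, ?_, ?_, hlast⟩
  · rw [hq, le_div_iff₀ hD0]
    calc (1 - p) ^ n * D ≤ (1 - p) ^ n * t ^ (n - 1) := by gcongr
      _ = (1 - p) * ((1 - p) * t) ^ (n - 1) := by
          rw [mul_pow]
          have : (1 - p) ^ n = (1 - p) * (1 - p) ^ (n - 1) := by
            rw [← pow_succ']
            congr 1
            omega
          rw [this]
          ring
      _ = 1 - p := by rw [htp, one_pow, mul_one]
  · intro s
    rw [piOf]
    split_ifs
    · exact le_rfl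
    · apply mul_nonneg (mul_nonneg hq0.le hp.le)
      apply sum_nonneg
      intro c _
      split_ifs
      · exact mul_nonneg (h0 c) (pow_nonneg ht0.le _)
      · exact le_rfl
  · rw [piOf, if_pos rfl]
  · intro s hs'
    rw [piOf, if_neg (by omega), sum_eq_zero, mul_zero]
    intro c hc
    rw [mem_range] at hc
    rw [if_neg (by omega)]
  · have e1 : ∑ s ∈ Icc 1 n, piOf p ν n s = qOf p ν n * ∑ c ∈ range n, ν c * (t ^ (c + 1) - 1) := by
      calc ∑ s ∈ Icc 1 n, piOf p ν n s = ∑ s ∈ Icc 1 n, qOf p ν n * (∑ c ∈ range n,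
            ν c * (p * (if s < c + 2 then t ^ (c + 2 - s) else 0))) := by
            apply sum_congr rfl
            intro s hs'
            rw [mem_Icc] at hs'
            rw [piOf, if_neg (by omega), mul_assoc]
            congr 1
            rw [mul_sum]
            apply sum_congr rfl
            intro c _
            split_ifs
            · ring
            · ring
        _ = qOf p ν n * ∑ c ∈ range n, ν c * (p * ∑ s ∈ Icc 1 n,
            (if s < c + 2 then t ^ (c + 2 - s) else 0)) := by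
            rw [← mul_sum, sum_comm]
            congr 1
            apply sum_congr rfl
            intro c _
            rw [mul_sum, mul_sum]
        _ = _ := by
            congr 1
            apply sum_congr rfl
            intro c hc
            rw [geom p t hpt n c (mem_range.1 hc)]
    rw [e1]
    have e2 : ∑ c ∈ range n, ν c * (t ^ (c + 1) - 1) = ∑ c ∈ range n, ν c * t ^ (c + 1) - 1 := by
      calc ∑ c ∈ range n, ν c * (t ^ (c + 1) - 1) =
            ∑ c ∈ range n, (ν c * t ^ (c + 1) - ν c) := by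
            apply sum_congr rfl
            intro c _
            ring
        _ = ∑ c ∈ range n, ν c * t ^ (c + 1) - 1 := by rw [sum_sub_distrib, hs]
    rw [e2, mul_sub, hlast]
    ring
  · intro s hs'
    rw [piOf, if_neg (by omega), mul_assoc, ← mul_add, mul_sum, ← sum_add_distrib]
    have e1 : ∀ c ∈ range n, p * (if s < c + 2 then ν c * t ^ (c + 2 - s) else 0) +
        (if c + 2 ≤ s then ν c * (p * (1 - p) ^ (s - 2 - c)) else 0) =
        (p * (1 - p) ^ (s - 1)) * (ν c * t ^ (c + 1)) := by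
      intro c _
      by_cases h : s < c + 2
      · rw [if_pos h, if_neg (by omega), add_zero]
        have e3 : t ^ (c + 1) = t ^ (c + 2 - s) * t ^ (s - 1) := by
          rw [← pow_add]
          congr 1
          omega
        have e4 : (1 - p) ^ (s - 1) * t ^ (s - 1) = 1 := by rw [← mul_pow, htp, one_pow]
        rw [e3]
        linear_combination (-(p * ν c * t ^ (c + 2 - s))) * e4
      · rw [if_neg h, if_pos (by omega), mul_zero, zero_add]
        have e3 : (1 - p) ^ (s - 1) = (1 - p) ^ (s - 2 - c) * (1 - p) ^ (c + 1) := by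
          rw [← pow_add]
          congr 1
          omega
        have e4 : (1 - p) ^ (c + 1) * t ^ (c + 1) = 1 := by rw [← mul_pow, htp, one_pow]
        rw [e3]
        linear_combination (-(p * ν c * (1 - p) ^ (s - 2 - c))) * e4
    rw [sum_congr rfl e1, ← mul_sum, mul_left_comm, hlast, mul_one]

/-- the invariant -/
theorem inv (p : ℝ) (hp : 0 < p) (hp1 : p < 1) (r : ℕ) :
    (∀ c, 0 ≤ nu p r c) ∧ (∀ c, 2 * r + 2 ≤ c → nu p r c = 0) ∧ nu p r 0 = 0 ∧
      ∑ c ∈ range (2 * r + 2), nu p r c = 1 := by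
  induction r with
  | zero =>
    have h : ∀ c, nu p 0 c = if c = 1 then 1 else 0 := fun c => rfl
    refine ⟨?_, ?_, ?_, ?_⟩
    · intro c
      rw [h]
      split_ifs
      · exact zero_le_one
      · exact le_rfl
    · intro c hc
      rw [h, if_neg (by omega)]
    · rw [h, if_neg (by omega)]
    · simp [h]
  | succ r ih =>
    obtain ⟨h0, hz, hz0, hs⟩ := ih
    obtain ⟨s1, s2, s3, s4, s5, s6, s7, s8, s9⟩ := step p hp hp1 (nu p r) (2 * r + 2) (by omega)
      h0 hz0 hs
    have hS : ∀ c, nu p (r + 1) (c + 1) = qOf p (nu p r) (2 * r + 2) * nu p r c +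
      piOf p (nu p r) (2 * r + 2) c := fun c => rfl
    have hZ : nu p (r + 1) 0 = 0 := rfl
    refine ⟨?_, ?_, hZ, ?_⟩
    · intro c
      cases c with
      | zero => rw [hZ]
      | succ c =>
        rw [hS]
        exact add_nonneg (mul_nonneg s1.le (h0 c)) (s4 c)
    · intro c hc
      obtain ⟨c', rfl⟩ : ∃ c', c = c' + 1 := ⟨c - 1, by omega⟩
      rw [hS, hz c' (by omega), s6 c' (by omega), mul_zero, add_zero]
    · have e1 : 2 * (r + 1) + 2 = (2 * r + 3) + 1 := by ring
      rw [e1, sum_range_succ', hZ, add_zero]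
      simp only [hS]
      rw [sum_add_distrib, ← mul_sum, sum_range_succ, hs, hz (2 * r + 2) le_rfl, add_zero, mul_one]
      have e2 : ∑ c ∈ range (2 * r + 3), piOf p (nu p r) (2 * r + 2) c =
          ∑ s ∈ Icc 1 (2 * r + 2), piOf p (nu p r) (2 * r + 2) s := by
        have e3 : range (2 * r + 3) = insert 0 (Icc 1 (2 * r + 2)) := by
          ext s
          rw [mem_range, mem_insert, mem_Icc]
          omega
        rw [e3, sum_insert (by simp), s5, zero_add]
      rw [e2, s7]

end NU_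

open NU_ in
theorem p_NU : T_NU := by
  intro p hp hp1 r
  obtain ⟨h0, hz, hz0, hs⟩ := inv p hp hp1 r
  obtain ⟨s1, s2, s3, s4, s5, s6, s7, s8, s9⟩ := step p hp hp1 (nu p r) (2 * r + 2) (by omega)
    h0 hz0 hs
  exact ⟨h0, hz, hz0, hs, s1, s2, s3, s4, s5, fun s hs' => s6 s (by omega), s7, s8, s9⟩

end Pool.Agent.PKA
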