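import Pool.Agent.PKA.Defs

set_option autoImplicit false

/-!
# 1-avoidance couplings of Bernoulli walkers (MP_f1618c_pr): exact targets

Proofs: `Blueprint.lean.txt`.
-/

open MeasureTheory ProbabilityTheory Filter Topology Finset

namespace Pool.Agent.PKA

/-- States that occur. -/
def OkSt (m : Mdl) : St → Prop
  | St.W _ r => r ≤ m.H
  | _ => True

/-! ## Block 1: the model -/

/-- ADD: additivity. -/
def T_ADD : Prop := ∀ (m : Mdl) (l₁ l₂ : List (Option Bool)) (s : St),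
  m.val (l₁ ++ none :: l₂) s = m.val (l₁ ++ some true :: l₂) s + m.val (l₁ ++ some false :: l₂) s

/-- CONS: consistency and nonnegativity. -/
def T_CONS : Prop := ∀ m : Mdl, Basic m →
  (∀ r ≤ m.H, m.aft m.base r = 1) ∧
  (∀ (l : List (Option Bool)) (s : St), OkSt m s → m.val (l ++ [none]) s = m.val l s) ∧
  (∀ (l : List (Option Bool)) (s : St), OkSt m s → 0 ≤ m.val l s)

/-- FAC: factorisation at a one. -/
def T_FAC : Prop := ∀ m : Mdl, Basic m → ∀ (l : List (Option Bool)) (g : ℝ),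
  (∀ r ≤ m.H, m.aft (m.val l) r = g) → ∀ (j : ℕ) (s : St), OkSt m s →
  m.val (List.replicate j none ++ some true :: l) s =
    g * m.val (List.replicate j none ++ [some true]) s

/-- GAP: two ones at distance less than `k` are impossible. -/
def T_GAP : Prop := ∀ m : Mdl, ∀ (l₁ l₂ l₃ : List (Option Bool)) (s : St),
  l₂.length + 1 < m.k → m.val (l₁ ++ some true :: (l₂ ++ some true :: l₃)) s = 0

/-- LAB (from T_ADD, T_CONS, T_FAC): the sequence of each walker is i.i.d. -/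
def T_LAB : Prop := ∀ (m : Mdl) (p : ℝ), Basic m → Law m p → ∀ (a : List (Option Bool)) (j : ℕ),
  m.val (List.replicate j none ++ spread m.k a) (St.S 0) = wt p a

/-! ## Block 2: the parameters -/

/-- NU: the compensation law. -/
def T_NU : Prop := ∀ p : ℝ, 0 < p → p < 1 → ∀ r : ℕ,
  (∀ c, 0 ≤ nu p r c) ∧ (∀ c, 2 * r + 2 ≤ c → nu p r c = 0) ∧ nu p r 0 = 0 ∧
  (∑ c ∈ range (2 * r + 2), nu p r c = 1) ∧ 0 < qq p r ∧ qq p r ≤ 1 ∧
  (1 - p) ^ (2 * r + 2) ≤ qq p r ∧ (∀ s, 0 ≤ pp p r s) ∧ pp p r 0 = 0 ∧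
  (∀ s, 2 * r + 3 ≤ s → pp p r s = 0) ∧
  (qq p r + ∑ s ∈ Icc 1 (2 * r + 2), pp p r s = 1) ∧
  (∀ s, 1 ≤ s → p * (1 - p) ^ (s - 1) = pp p r s +
    qq p r * ∑ c ∈ range (2 * r + 2), if c + 2 ≤ s then nu p r c * (p * (1 - p) ^ (s - 2 - c))
      else 0) ∧
  qq p r * ∑ c ∈ range (2 * r + 2), nu p r c * ((1 - p)⁻¹) ^ (c + 1) = 1

/-- ID (from T_NU): conditioning on the first one. -/
def T_ID : Prop := ∀ p : ℝ, 0 < p → p < 1 → ∀ H r : ℕ, r < H → ∀ a : List (Option Bool),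
  wt p a = ∑ s ∈ Icc 1 (2 * H), pp p r s * os p s a +
    qq p r * ∑ c ∈ range (2 * H + 2), nu p r c * zw p (c + 1) a

/-- AA: the sequence `aa`. -/
def T_AA : Prop := ∀ (k : ℕ) (β κ : ℝ), 1 ≤ k → 0 < β → 0 < κ → κ < 1 →
  β ≤ κ * (1 - κ) ^ (k - 1) →
  aa k β 0 = 1 ∧ (∀ n, aa k β (n + 1) = aa k β n - β * sh (aa k β) k (n + 1)) ∧
  (∀ n, 0 < aa k β n) ∧ (∀ n, aa k β (n + 1) ≤ aa k β n) ∧
  (∀ n j, aa k β n ≤ ((1 - κ)⁻¹) ^ j * aa k β (n + j)) ∧ Tendsto (aa k β) atTop (𝓝 0)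

/-- BAS (from T_NU, T_AA): basic properties of the model. -/
def T_BAS : Prop := ∀ (k H : ℕ) (p β κ : ℝ) (ρ : ℕ → ℝ), Par k H p β κ ρ → Basic (mdl k H p β ρ)

/-- UNI (from T_NU, T_AA): the probability of a one is `p` at every turn. -/
def T_UNI : Prop := ∀ (k H : ℕ) (p β κ : ℝ) (ρ : ℕ → ℝ), Par k H p β κ ρ → ∀ j,
  (mdl k H p β ρ).val (List.replicate j none ++ [some true]) (St.S 0) = p

/-- EX (from T_NU): existence of parameters. -/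
def T_EX : Prop := ∀ ε : ℝ, 0 < ε → ε < 1 → ∀ᶠ k : ℕ in atTop,
  ∃ (H : ℕ) (β κ : ℝ) (ρ : ℕ → ℝ), Par k H ((1 - ε) / k) β κ ρ

/-- EX0: parameters for `H = 0`. -/
def T_EX0 : Prop := ∀ k : ℕ, 2 ≤ k → Par k 0 (((k : ℝ) - 1) ^ (k - 1) / (k : ℝ) ^ k)
  (((k : ℝ) - 1) ^ (k - 1) / (k : ℝ) ^ k) (1 / k)
  (fun r => if r = 0 then ((k : ℝ) - 1) ^ (k - 1) / (k : ℝ) ^ k else 0)

/-! ## Block 3: measures -/

/-- MEAS: a measure with given cylinder probabilities. -/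
def T_MEAS : Prop := ∀ W : List Bool → ℝ, (∀ l, 0 ≤ W l) → W [] = 1 →
  (∀ l, W l = W (l ++ [true]) + W (l ++ [false])) →
  ∃ μ : Measure (ℕ → Bool), IsProbabilityMeasure μ ∧
    ∀ l : List Bool, μ {z | ∀ (i : ℕ) (h : i < l.length), z i = l[i]} = ENNReal.ofReal (W l)

/-- CPL (from T_ADD, T_CONS, T_GAP, T_MEAS): the coupling. -/
def T_CPL : Prop := ∀ (m : Mdl) (p : ℝ), Basic m → 0 ≤ p → p ≤ 1 →
  (∀ (a : List (Option Bool)) (j : ℕ),
    m.val (List.replicate j none ++ spread m.k a) (St.S 0) = wt p a) → Coupled m.k p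

/-- UB: the upper bound `1 / k`. -/
def T_UB : Prop := ∀ (k : ℕ) (p : ℝ), 1 ≤ k → 0 ≤ p → Coupled k p → k * p ≤ 1

/-- UB2: the upper bound `1 / 3` for two walkers. -/
def T_UB2 : Prop := ∀ p : ℝ, 0 ≤ p → p ≤ 1 → Coupled 2 p → p ≤ 1 / 3

/-- FIN (from everything): the result. -/
def T_FIN : Prop := Tendsto (fun k : ℕ => (k : ℝ) * pk k) atTop (𝓝 1) ∧ pk 2 ≤ 1 / 3 ∧
  ∀ k : ℕ, 2 ≤ k → ((k : ℝ) - 1) ^ (k - 1) / (k : ℝ) ^ k ≤ pk k

end Pool.Agent.PKA
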