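import Pool.Agent.PKA.Targets

set_option autoImplicit false

/-!
# The upper bound `1 / k` (target `T_UB`)
-/

open MeasureTheory ProbabilityTheory Filter Topology Finset

namespace Pool.Agent.PKA

theorem p_UB : T_UB := by
  rintro k p hk hp ⟨Ω, _, P, X, hX⟩
  have := hX.prob
  have hmeas : ∀ j : Fin k, MeasurableSet {ω | X j 0 ω = true} := fun j =>
    hX.meas j 0 (measurableSet_singleton true)
  have hlt : ∀ i j : Fin k, i < j → P ({ω | X i 0 ω = true} ∩ {ω | X j 0 ω = true}) = 0 := by
    intro i j hij
    rw [← nonpos_iff_eq_zero, ← ae_iff.mp hX.avoid]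
    refine measure_mono fun ω hω => ?_
    intro h
    refine h i j 0 0 ?_ ?_ ⟨hω.1, hω.2⟩
    · have : (i : ℕ) < j := hij
      omega
    · have := j.2
      omega
  have hdis : Pairwise (Function.onFun (AEDisjoint P) fun j : Fin k => {ω | X j 0 ω = true}) := by
    intro i j hij
    rcases lt_or_gt_of_ne hij with h | h
    · exact hlt i j h
    · change P _ = 0
      rw [Set.inter_comm]
      exact hlt j i h
  have h1 := tsum_measure_le_measure_univ (μ := P) (fun j => (hmeas j).nullMeasurableSet) hdis
  rw [tsum_fintype, measure_univ] at h1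
  simp only [hX.law, sum_const, card_univ, Fintype.card_fin, nsmul_eq_mul] at h1
  have h2 : ENNReal.ofReal (k * p) ≤ ENNReal.ofReal 1 := by
    rw [ENNReal.ofReal_mul (Nat.cast_nonneg k), ENNReal.ofReal_natCast, ENNReal.ofReal_one]
    exact h1
  exact (ENNReal.ofReal_le_ofReal_iff zero_le_one).mp h2

end Pool.Agent.PKA
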