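import Pool.Agent.PKA.Targets

set_option autoImplicit false

/-!
# UB2: the upper bound `1 / 3` for two walkers
-/

open MeasureTheory ProbabilityTheory Filter Topology Finset

namespace Pool.Agent.PKA

private theorem num {g : ℕ → ℝ} {p : ℝ} (h1 : 1 / 3 < p) (h2 : p < 1) (h0 : g 0 = 1)
    (hg1 : g 1 = 2 * p - p ^ 2)
    (hrec : ∀ n, g (n + 2) = p * g (n + 1) + p * (1 - p) * g n)
    (hle : ∀ n, g n ≤ (1 - p) ^ n) : False := by
  set c : ℝ := 2 * p - p ^ 2 with hc
  have hp1 : 0 < 1 - p := by linarith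
  have hp0 : 0 < p := by linarith
  have hc0 : 0 < c := by rw [hc]; nlinarith
  have hc1 : c ≤ 1 := by rw [hc]; nlinarith [sq_nonneg (1 - p)]
  set m : ℝ := (1 - p) * (1 + (3 * p - 1) / 2) with hm
  have hm0 : 1 - p < m := by rw [hm]; nlinarith
  have hmpos : 0 < m := hp1.trans hm0
  have hm1 : m < 1 := by rw [hm]; nlinarith [sq_nonneg (1 - p), sq_nonneg p]
  have hm2 : m ^ 2 ≤ p * m + p * (1 - p) := by
    have e : p * m + p * (1 - p) - m ^ 2 = (1 - p) * ((3 * p - 1) * (3 * p ^ 2 + 2 * p + 1)) / 4 := by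
      rw [hm]; ring
    have h3 : 0 ≤ (1 - p) * ((3 * p - 1) * (3 * p ^ 2 + 2 * p + 1)) / 4 := by
      have h4 : 0 ≤ 3 * p - 1 := by linarith
      positivity
    linarith
  have key : ∀ n, c * m ^ n ≤ g n ∧ c * m ^ (n + 1) ≤ g (n + 1) := by
    intro n
    induction n with
    | zero =>
      constructor
      · rw [pow_zero, mul_one, h0]; exact hc1
      · rw [zero_add, pow_one, hg1]
        nlinarith
    | succ n ih =>
      refine ⟨ih.2, ?_⟩
      rw [show n + 1 + 1 = n + 2 by ring, hrec n]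
      have h3 : p * (c * m ^ (n + 1)) ≤ p * g (n + 1) := mul_le_mul_of_nonneg_left ih.2 hp0.le
      have h4 : p * (1 - p) * (c * m ^ n) ≤ p * (1 - p) * g n :=
        mul_le_mul_of_nonneg_left ih.1 (by positivity)
      have h5 : c * m ^ n * m ^ 2 ≤ c * m ^ n * (p * m + p * (1 - p)) :=
        mul_le_mul_of_nonneg_left hm2 (by positivity)
      have e1 : c * m ^ (n + 2) = c * m ^ n * m ^ 2 := by ring
      have e2 : c * m ^ n * (p * m + p * (1 - p)) =
        p * (c * m ^ (n + 1)) + p * (1 - p) * (c * m ^ n) := by ring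
      rw [e1]
      linarith
  obtain ⟨n, hn⟩ := exists_pow_lt_of_lt_one hc0 ((div_lt_one hmpos).2 hm0)
  rw [div_pow, div_lt_iff₀ (by positivity)] at hn
  linarith [(key n).1, hle n]

private theorem ind_step {Ω : Type} [MeasurableSpace Ω] {P : Measure Ω}
    {Y : ℕ → Ω → Bool} (hm : ∀ t, Measurable (Y t)) (hi : iIndepFun Y P) (n : ℕ)
    (S : (ℕ → Bool) → Prop) (hS : ∀ v w, (∀ i ≤ n, v i = w i) → S v → S w) (b : Bool) :
    P.real ({ω | S (fun i => Y i ω)} ∩ {ω | Y (n + 1) ω = b}) =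
      P.real {ω | S (fun i => Y i ω)} * P.real {ω | Y (n + 1) ω = b} := by
  have h := hi.indepFun_finset (range (n + 1)) {n + 1} (by simp) hm
  have h2 := h.measure_inter_preimage_eq_mul
    {v | S (fun i => if h : i ∈ range (n + 1) then v ⟨i, h⟩ else true)}
    {u | u ⟨n + 1, mem_singleton_self _⟩ = b}
    (MeasurableSet.of_discrete) (MeasurableSet.of_discrete)
  have e1 : (fun a (i : range (n + 1)) => Y i a) ⁻¹'
      {v | S (fun i => if h : i ∈ range (n + 1) then v ⟨i, h⟩ else true)} =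
      {ω | S (fun i => Y i ω)} := by
    ext ω
    have h3 : ∀ i ≤ n, (if h : i ∈ range (n + 1) then Y i ω else true) = Y i ω := by
      intro i hi'
      rw [dif_pos (mem_range.2 (by omega))]
    constructor
    · intro h4
      exact hS _ _ h3 h4
    · intro h4
      exact hS _ _ (fun i hi' => (h3 i hi').symm) h4
  have e2 : (fun a (i : ({n + 1} : Finset ℕ)) => Y i a) ⁻¹'
      {u | u ⟨n + 1, mem_singleton_self _⟩ = b} = {ω | Y (n + 1) ω = b} := rfl
  rw [e1, e2] at h2
  unfold Measure.real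
  rw [h2, ENNReal.toReal_mul]

/-- no two consecutive zeros -/
private def Sn (n : ℕ) (v : ℕ → Bool) : Prop := ∀ t < n, ¬ (v t = false ∧ v (t + 1) = false)

private theorem Sn_congr (n : ℕ) (v w : ℕ → Bool) (h : ∀ i ≤ n, v i = w i) (hv : Sn n v) :
    Sn n w := by
  intro t ht
  rw [← h t (by omega), ← h (t + 1) (by omega)]
  exact hv t ht

private theorem Sn_succ (n : ℕ) (v : ℕ → Bool) :
    Sn (n + 1) v ↔ Sn n v ∧ ¬ (v n = false ∧ v (n + 1) = false) := by
  constructor
  · intro h
    exact ⟨fun t ht => h t (by omega), h n (by omega)⟩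
  · rintro ⟨h1, h2⟩ t ht
    rcases Nat.lt_succ_iff_lt_or_eq.1 ht with h3 | h3
    · exact h1 t h3
    · rw [h3]; exact h2

/-- UB2 -/
theorem p_UB2 : T_UB2 := by
  rintro p hp0 hp1 ⟨Ω, _, P, X, hX⟩
  by_contra hlt
  push Not at hlt
  have := hX.prob
  have h01 : (0 : ℕ) < 2 := by norm_num
  set Y : ℕ → Ω → Bool := X 0 with hY
  set Z : ℕ → Ω → Bool := X 1 with hZ
  have hYm : ∀ t, Measurable (Y t) := hX.meas 0
  have hZm : ∀ t, Measurable (Z t) := hX.meas 1
  have hYp : ∀ t, P.real {ω | Y t ω = true} = p := fun t => by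
    unfold Measure.real
    rw [hX.law 0 t, ENNReal.toReal_ofReal hp0]
  have hZp : ∀ t, P.real {ω | Z t ω = true} = p := fun t => by
    unfold Measure.real
    rw [hX.law 1 t, ENNReal.toReal_ofReal hp0]
  have compl : ∀ W : ℕ → Ω → Bool, (∀ t, Measurable (W t)) →
      (∀ t, P.real {ω | W t ω = true} = p) → ∀ t, P.real {ω | W t ω = false} = 1 - p := by
    intro W hW hWp t
    have e : {ω | W t ω = false} = {ω | W t ω = true}ᶜ := by
      ext ω
      simp
    have hms : MeasurableSet {ω | W t ω = true} := hW t (MeasurableSet.of_discrete (s := {true}))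
    rw [e, probReal_compl_eq_one_sub hms, hWp t]
  have hYq := compl Y hYm hYp
  have hZq := compl Z hZm hZp
  set g : ℕ → ℝ := fun n => P.real {ω | Sn n (fun i => Y i ω)} with hg
  set x : ℕ → ℝ := fun n => P.real {ω | Sn n (fun i => Y i ω) ∧ Y n ω = true} with hx
  set y : ℕ → ℝ := fun n => P.real {ω | Sn n (fun i => Y i ω) ∧ Y n ω = false} with hy
  have hgxy : ∀ n, g n = x n + y n := by
    intro n
    have hms : MeasurableSet {ω | Y n ω = true} := hYm n (MeasurableSet.of_discrete (s := {true}))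
    have h1 := measureReal_inter_add_sdiff (μ := P) (s := {ω | Sn n (fun i => Y i ω)}) hms
    rw [hg, hx, hy]
    show P.real {ω | Sn n (fun i => Y i ω)} = P.real {ω | Sn n (fun i => Y i ω) ∧ Y n ω = true} +
      P.real {ω | Sn n (fun i => Y i ω) ∧ Y n ω = false}
    rw [← h1]
    congr 2
    ext ω
    simp
  have hxs : ∀ n, x (n + 1) = g n * p := by
    intro n
    have h1 := ind_step hYm (hX.indep 0) n (Sn n) (Sn_congr n) true
    rw [hYp (n + 1)] at h1
    show P.real {ω | Sn (n + 1) (fun i => Y i ω) ∧ Y (n + 1) ω = true} = _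
    have h2 : {ω | Sn (n + 1) (fun i => Y i ω) ∧ Y (n + 1) ω = true} =
        {ω | Sn n (fun i => Y i ω)} ∩ {ω | Y (n + 1) ω = true} := by
      ext ω
      simp only [Set.mem_ofPred_eq, Set.mem_inter_iff, Sn_succ]
      constructor
      · rintro ⟨⟨h3, _⟩, h4⟩
        exact ⟨h3, h4⟩
      · rintro ⟨h3, h4⟩
        refine ⟨⟨h3, ?_⟩, h4⟩
        rintro ⟨_, h5⟩
        rw [h4] at h5
        exact absurd h5 (by decide)
    rw [h2]
    exact h1
  have hys : ∀ n, y (n + 1) = x n * (1 - p) := by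
    intro n
    have h1 := ind_step hYm (hX.indep 0) n (fun v => Sn n v ∧ v n = true)
      (fun v w h hv => ⟨Sn_congr n v w h hv.1, by rw [← h n le_rfl]; exact hv.2⟩) false
    rw [hYq (n + 1)] at h1
    show P.real {ω | Sn (n + 1) (fun i => Y i ω) ∧ Y (n + 1) ω = false} = _
    have h2 : {ω | Sn (n + 1) (fun i => Y i ω) ∧ Y (n + 1) ω = false} =
        {ω | Sn n (fun i => Y i ω) ∧ Y n ω = true} ∩ {ω | Y (n + 1) ω = false} := by
      ext ω
      simp only [Set.mem_ofPred_eq, Set.mem_inter_iff, Sn_succ]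
      constructor
      · rintro ⟨⟨h3, h5⟩, h4⟩
        refine ⟨⟨h3, ?_⟩, h4⟩
        by_contra h6
        exact h5 ⟨by simpa using h6, h4⟩
      · rintro ⟨⟨h3, h5⟩, h4⟩
        refine ⟨⟨h3, ?_⟩, h4⟩
        rintro ⟨h6, _⟩
        rw [h5] at h6
        exact absurd h6 (by decide)
    rw [h2]
    exact h1
  have hg0 : g 0 = 1 := by
    show P.real {ω | Sn 0 (fun i => Y i ω)} = 1
    have : {ω | Sn 0 (fun i => Y i ω)} = Set.univ := by
      ext ω
      simp [Sn]
    rw [this, probReal_univ]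
  have hx0 : x 0 = p := by
    rw [← hYp 0]
    show P.real {ω | Sn 0 (fun i => Y i ω) ∧ Y 0 ω = true} = _
    congr 1
    ext ω
    simp [Sn]
  have hg1 : g 1 = 2 * p - p ^ 2 := by
    rw [hgxy 1, hxs 0, hys 0, hg0, hx0]
    ring
  have hrec : ∀ n, g (n + 2) = p * g (n + 1) + p * (1 - p) * g n := by
    intro n
    rw [hgxy (n + 2), hxs (n + 1), hys (n + 1), hxs n]
    ring
  have hle : ∀ n, g n ≤ (1 - p) ^ n := by
    intro n
    have h1 : P (⋂ i ∈ range n, Z i ⁻¹' {false}) = ∏ i ∈ range n, P (Z i ⁻¹' {false}) :=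
      (hX.indep 1).measure_inter_preimage_eq_mul (range n) (sets := fun _ => {false})
        (fun i _ => MeasurableSet.of_discrete)
    have h2 : P.real (⋂ i ∈ range n, Z i ⁻¹' {false}) = (1 - p) ^ n := by
      unfold Measure.real
      rw [h1, ENNReal.toReal_prod]
      have h3 : ∀ i ∈ range n, (P (Z i ⁻¹' {false})).toReal = 1 - p := fun i _ => hZq i
      rw [prod_congr rfl h3, prod_const, card_range]
    rw [← h2]
    have h4 : ({ω | Sn n (fun i => Y i ω)} : Set Ω) ≤ᵐ[P] (⋂ i ∈ range n, Z i ⁻¹' {false}) := by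
      filter_upwards [hX.avoid] with ω hω hS
      have hS' : Sn n (fun i => Y i ω) := hS
      show ω ∈ ⋂ i ∈ range n, Z i ⁻¹' {false}
      simp only [Set.mem_iInter, mem_range]
      intro t ht
      show Z t ω = false
      by_contra h5
      have h6 : Z t ω = true := by simpa using h5
      apply hS' t ht
      constructor
      · have h7 := hω 0 1 t t (by simp) (by simp)
        by_contra h8
        exact h7 ⟨by simpa using h8, h6⟩
      · have h7 := hω 1 0 t (t + 1) (by simp; omega) (by simp; omega)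
        by_contra h8
        exact h7 ⟨h6, by simpa using h8⟩
    exact ENNReal.toReal_mono (measure_ne_top _ _) (measure_mono_ae h4)
  rcases hp1.lt_or_eq with h | h
  · exact num hlt h hg0 hg1 hrec hle
  · have h1 := hle 1
    rw [hg1, h] at h1
    norm_num at h1

end Pool.Agent.PKA
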