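import Pool.Agent.PKA.Targets

set_option autoImplicit false

/-!
# UNI: the probability of a one is `p` at every turn
-/

open Finset PowerSeries

namespace Pool.Agent.PKA

private noncomputable def vv (m : Mdl) (j : ℕ) (s : St) : ℝ :=
  m.val (List.replicate j none ++ [some true]) s

private lemma vv_zero (m : Mdl) : vv m 0 = m.step (some true) m.base := rfl

private lemma vv_succ (m : Mdl) (j : ℕ) : vv m (j + 1) = m.step none (vv m j) := by
  funext s
  unfold vv
  rw [List.replicate_succ]
  rfl

private lemma vW0 (m : Mdl) (r : ℕ) : vv m 0 (St.W 0 r) = m.aft m.base r := by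
  rw [vv_zero]
  simp [Mdl.step, ok1]

private lemma vW0s (m : Mdl) (j r : ℕ) : vv m (j + 1) (St.W 0 r) = m.aft (vv m j) r := by
  rw [vv_succ]
  simp [Mdl.step, ok1]

private lemma vW (m : Mdl) (r : ℕ) : ∀ n d : ℕ,
    vv m n (St.W d r) = sh (fun i => vv m i (St.W 0 r)) d n := by
  intro n
  induction n with
  | zero =>
    intro d
    cases d with
    | zero => simp [sh]
    | succ d => rw [vv_zero]; simp [Mdl.step, ok0, sh]
  | succ n ih =>
    intro d
    cases d with
    | zero => simp [sh]
    | succ d =>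
      rw [vv_succ]
      have : m.step none (vv m n) (St.W (d + 1) r) = vv m n (St.W d r) := by
        simp [Mdl.step, ok0]
      rw [this, ih d]
      simp only [sh, Nat.add_le_add_iff_right, Nat.add_sub_add_right]

private lemma vB0 (m : Mdl) (n : ℕ) : vv m n (St.B 0) = vv m n (St.S 0) := by
  cases n with
  | zero => rw [vv_zero]; simp [Mdl.step]
  | succ n => rw [vv_succ]; simp [Mdl.step]

private lemma vB (m : Mdl) : ∀ n d : ℕ,
    vv m n (St.B d) = sh (fun i => vv m i (St.S 0)) d n := by
  intro n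
  induction n with
  | zero =>
    intro d
    cases d with
    | zero => simp [sh, vB0]
    | succ d => rw [vv_zero]; simp [Mdl.step, ok0, sh]
  | succ n ih =>
    intro d
    cases d with
    | zero => simp [sh, vB0]
    | succ d =>
      rw [vv_succ]
      have : m.step none (vv m n) (St.B (d + 1)) = vv m n (St.B d) := by
        simp [Mdl.step, ok0]
      rw [this, ih d]
      simp only [sh, Nat.add_le_add_iff_right, Nat.add_sub_add_right]

private lemma vS (m : Mdl) : ∀ j x : ℕ, vv m j (St.S x) =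
    ∑ y ∈ range (j + 1), ∑ r ∈ range (m.H + 1), m.e (x + y) r * vv m (j - y) (St.W 0 r) := by
  intro j
  induction j with
  | zero =>
    intro x
    have h1 : vv m 0 (St.S x) = ∑ r ∈ range (m.H + 1), m.e x r * m.aft m.base r := by
      rw [vv_zero]
      simp [Mdl.step, ok1, ok0]
    rw [h1]
    simp [vW0]
  | succ j ih =>
    intro x
    rw [sum_range_succ']
    have h1 : vv m (j + 1) (St.S x) =
        ∑ r ∈ range (m.H + 1), m.e x r * m.aft (vv m j) r + vv m j (St.S (x + 1)) := by
      rw [vv_succ]; simp [Mdl.step, ok1, ok0]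
    rw [h1, ih (x + 1), add_comm]
    congr 1
    · refine sum_congr rfl fun y hy => ?_
      refine sum_congr rfl fun r hr => ?_
      rw [show x + 1 + y = x + (y + 1) by ring, show j + 1 - (y + 1) = j - y by omega]
    · refine sum_congr rfl fun r hr => ?_
      rw [Nat.sub_zero, vW0s, add_zero]

private lemma mk_sh (f : ℕ → ℝ) (d : ℕ) :
    (PowerSeries.mk (sh f d) : ℝ⟦X⟧) = X ^ d * PowerSeries.mk f := by
  ext n
  rw [coeff_X_pow_mul', coeff_mk, coeff_mk]
  rfl

theorem p_UNI (h0 : T_NU) (h1 : T_AA) : T_UNI := by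
  intro k H p β κ ρ hpar j
  obtain ⟨hk, hH, p0, p1, κ0, κ1, β0, hβ, ρ0, ρn, ρH, hsum, dec, dec0⟩ := hpar
  obtain ⟨a0, arec, -, -, -, -⟩ := h1 k β κ (by omega) β0 κ0 κ1 hβ
  set m := mdl k H p β ρ with hm
  have mk' : m.k = k := rfl
  have mH : m.H = H := rfl
  have mN : m.N = 2 * H := rfl
  have mq : m.q = qq p := rfl
  have mpi : m.pi = pp p := rfl
  have me : m.e = ee k H p β ρ := rfl
  have mE0 : m.E 0 = 1 := by rw [hm]; simp [mdl]
  -- mass
  have hmass : ∀ r < H, qq p r + ∑ s ∈ Icc 1 (2 * H), pp p r s = 1 := by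
    intro r hr
    obtain ⟨-, -, -, -, -, -, -, -, -, hz, hs, -, -⟩ := h0 p p0 p1 r
    rw [← hs]
    congr 1
    symm
    apply sum_subset
    · intro s hs
      rw [mem_Icc] at hs ⊢
      omega
    · intro s hs hs'
      rw [mem_Icc] at hs hs'
      exact hz s (by omega)
  -- the functions
  let u : ℕ → ℕ → ℝ := fun r n => vv m n (St.W 0 r)
  let U : ℕ → ℝ := fun n => vv m n (St.S 0)
  have hu0 : ∀ n, u 0 n = (if n = 0 then 1 else 0) + sh U k n := by
    intro n
    cases n with
    | zero =>
      show vv m 0 (St.W 0 0) = _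
      rw [vW0]
      have : ¬ k ≤ 0 := by omega
      simp [Mdl.aft, Mdl.base, sh, this]
    | succ n =>
      show vv m (n + 1) (St.W 0 0) = _
      rw [vW0s]
      show vv m n (St.B (m.k - 1)) = _
      rw [vB, mk']
      simp only [Nat.add_eq_zero_iff, one_ne_zero, and_false, if_false, zero_add]
      show sh U (k - 1) n = sh U k (n + 1)
      unfold sh
      by_cases h : k ≤ n + 1
      · rw [if_pos h, if_pos (by omega), show n - (k - 1) = n + 1 - k by omega]
      · rw [if_neg h, if_neg (by omega)]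
  have hus : ∀ r < H, ∀ n, u (r + 1) n = (if n = 0 then 1 else 0) + qq p r * sh (u r) (k + 1) n +
      ∑ s ∈ Icc 1 (2 * H), pp p r s * sh (u 0) (s * k) n := by
    intro r hr n
    cases n with
    | zero =>
      show vv m 0 (St.W 0 (r + 1)) = _
      rw [vW0]
      show m.q r * m.base (St.W m.k r) + ∑ s ∈ Icc 1 m.N, m.pi r s * m.base (St.W (s * m.k - 1) 0)
        = _
      have e1 : ∑ s ∈ Icc 1 (2 * H), pp p r s * sh (u 0) (s * k) 0 = 0 := by
        apply sum_eq_zero
        intro s hs
        rw [mem_Icc] at hs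
        have : ¬ s * k ≤ 0 := by
          have : 0 < s * k := Nat.mul_pos (by omega) (by omega)
          omega
        simp [sh, this]
      rw [e1]
      have e2 : sh (u r) (k + 1) 0 = 0 := by simp [sh]
      rw [e2]
      simp only [Mdl.base, mul_one, if_true, mul_zero, add_zero]
      rw [mq, mpi, mN]
      exact hmass r hr
    | succ n =>
      show vv m (n + 1) (St.W 0 (r + 1)) = _
      rw [vW0s]
      show m.q r * vv m n (St.W m.k r) + ∑ s ∈ Icc 1 m.N, m.pi r s * vv m n (St.W (s * m.k - 1) 0)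
        = _
      simp only [Nat.add_eq_zero_iff, one_ne_zero, and_false, if_false, zero_add]
      rw [mq, mpi, mN, mk', vW]
      congr 1
      · congr 1
        show sh (u r) k n = sh (u r) (k + 1) (n + 1)
        unfold sh
        by_cases h : k ≤ n
        · rw [if_pos h, if_pos (by omega), show n + 1 - (k + 1) = n - k by omega]
        · rw [if_neg h, if_neg (by omega)]
      · refine sum_congr rfl fun s hs => ?_
        rw [mem_Icc] at hs
        rw [vW]
        congr 1
        show sh (u 0) (s * k - 1) n = sh (u 0) (s * k) (n + 1)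
        have hpos : 0 < s * k := Nat.mul_pos (by omega) (by omega)
        unfold sh
        by_cases h : s * k ≤ n + 1
        · rw [if_pos h, if_pos (by omega), show n - (s * k - 1) = n + 1 - s * k by omega]
        · rw [if_neg h, if_neg (by omega)]
  have hU : ∀ n, U n = ∑ y ∈ range (n + 1), ∑ r ∈ range (H + 1),
      ee k H p β ρ y r * u r (n - y) := by
    intro n
    show vv m n (St.S 0) = _
    rw [vS, me, mH]
    refine sum_congr rfl fun y _ => ?_
    rw [Nat.zero_add]
  -- power series
  set A : ℝ⟦X⟧ := PowerSeries.mk (aa k β) with hA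
  set PU : ℝ⟦X⟧ := PowerSeries.mk U with hPU
  let Pu : ℕ → ℝ⟦X⟧ := fun r => PowerSeries.mk (u r)
  let Pe : ℕ → ℝ⟦X⟧ := fun r => PowerSeries.mk (fun x => ee k H p β ρ x r)
  have hA1 : A * (1 - X + C β * X ^ k) = 1 := by
    have : A = 1 + X * A - C β * (X ^ k * A) := by
      ext n
      rw [map_sub, map_add, coeff_C_mul, hA, ← mk_sh, coeff_mk, coeff_mk]
      cases n with
      | zero =>
        have : ¬ k ≤ 0 := by omega
        simp [sh, this, a0]
      | succ n =>
        rw [coeff_succ_X_mul, coeff_mk, arec n]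
        simp
    linear_combination this
  have hPu0 : Pu 0 = 1 + X ^ k * PU := by
    ext n
    rw [map_add, hPU, ← mk_sh, coeff_mk, coeff_mk, hu0 n, coeff_one]
  have hPus : ∀ r < H, Pu (r + 1) = 1 + C (qq p r) * (X ^ (k + 1) * Pu r) +
      (∑ s ∈ Icc 1 (2 * H), C (pp p r s) * X ^ (s * k)) * Pu 0 := by
    intro r hr
    ext n
    rw [sum_mul]
    simp only [mul_assoc]
    rw [map_add, map_add, map_sum, coeff_C_mul]
    simp only [coeff_C_mul]
    simp only [Pu, ← mk_sh, coeff_mk]
    rw [hus r hr n, coeff_one]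
  have hPe : ∀ r, Pe r = A * (C (ρ r) - C (qq p r * ρ (r + 1)) * X ^ (k + 1) -
      (if r = 0 then ∑ s ∈ Icc 1 (2 * H), C (PI p H ρ s) * X ^ (s * k) else 0)) := by
    intro r
    ext n
    have e1 : A * (C (ρ r) - C (qq p r * ρ (r + 1)) * X ^ (k + 1) -
      (if r = 0 then ∑ s ∈ Icc 1 (2 * H), C (PI p H ρ s) * X ^ (s * k) else 0)) =
      C (ρ r) * A - C (qq p r * ρ (r + 1)) * (X ^ (k + 1) * A) -
      (if r = 0 then ∑ s ∈ Icc 1 (2 * H), C (PI p H ρ s) * (X ^ (s * k) * A) else 0) := by
      split_ifs with h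
      · have : ∑ s ∈ Icc 1 (2 * H), C (PI p H ρ s) * (X ^ (s * k) * A) =
          (∑ s ∈ Icc 1 (2 * H), C (PI p H ρ s) * X ^ (s * k)) * A := by
          rw [sum_mul]
          exact sum_congr rfl fun s _ => by ring
        rw [this]
        ring
      · ring
    rw [e1, map_sub, map_sub, coeff_C_mul, coeff_C_mul, hA, ← mk_sh, coeff_mk, coeff_mk]
    simp only [Pe, coeff_mk]
    unfold ee
    congr 1
    split_ifs with h
    · rw [map_sum]
      refine sum_congr rfl fun s _ => ?_
      rw [coeff_C_mul, ← mk_sh, coeff_mk]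
    · simp
  have hPUe : PU = ∑ r ∈ range (H + 1), Pe r * Pu r := by
    ext n
    rw [map_sum]
    simp only [coeff_mul]
    rw [hPU, coeff_mk, hU n, sum_comm]
    refine sum_congr rfl fun r _ => ?_
    rw [Finset.Nat.sum_antidiagonal_eq_sum_range_succ_mk]
    simp only [Pe, Pu, coeff_mk]
  have hPI : (∑ s ∈ Icc 1 (2 * H), C (PI p H ρ s) * X ^ (s * k) : ℝ⟦X⟧) =
      ∑ r ∈ range H, C (ρ (r + 1)) * ∑ s ∈ Icc 1 (2 * H), C (pp p r s) * X ^ (s * k) := by
    simp only [PI, map_sum, map_mul, sum_mul, mul_sum]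
    rw [sum_comm]
    refine sum_congr rfl fun r _ => sum_congr rfl fun s _ => ?_
    ring
  have hmain : PU = A * (C p + C β * (X ^ k * PU)) := by
    have e2 : PU = A * (∑ r ∈ range (H + 1), C (ρ r) * Pu r -
        ∑ r ∈ range (H + 1), C (qq p r * ρ (r + 1)) * X ^ (k + 1) * Pu r -
        (∑ s ∈ Icc 1 (2 * H), C (PI p H ρ s) * X ^ (s * k)) * Pu 0) := by
      conv_lhs => rw [hPUe]
      have : ∀ r, Pe r * Pu r = A * (C (ρ r) * Pu r - C (qq p r * ρ (r + 1)) * X ^ (k + 1) * Pu r -
          (if r = 0 then (∑ s ∈ Icc 1 (2 * H), C (PI p H ρ s) * X ^ (s * k)) * Pu 0 else 0)) := by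
        intro r
        rw [hPe r]
        split_ifs with h
        · subst h
          ring
        · ring
      rw [sum_congr rfl fun r _ => this r, ← mul_sum, sum_sub_distrib, sum_sub_distrib]
      congr 2
      rw [sum_ite_eq' (range (H + 1)) 0, if_pos (by simp)]
    refine e2.trans ?_
    congr 1
    rw [sum_range_succ' (fun r => C (ρ r) * Pu r), sum_range_succ (fun r =>
      C (qq p r * ρ (r + 1)) * X ^ (k + 1) * Pu r), ρH, hPI]
    have e3 : ∑ r ∈ range H, C (ρ (r + 1)) * Pu (r + 1) =
        ∑ r ∈ range H, C (ρ (r + 1)) + ∑ r ∈ range H, C (qq p r * ρ (r + 1)) * X ^ (k + 1) * Pu r +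
        (∑ r ∈ range H, C (ρ (r + 1)) * ∑ s ∈ Icc 1 (2 * H), C (pp p r s) * X ^ (s * k)) *
          Pu 0 := by
      rw [sum_mul, ← sum_add_distrib, ← sum_add_distrib]
      refine sum_congr rfl fun r hr => ?_
      rw [hPus r (mem_range.mp hr), map_mul]
      ring
    rw [e3]
    have e4 : (C p : ℝ⟦X⟧) = ∑ r ∈ range H, C (ρ (r + 1)) + C (ρ 0) := by
      rw [← hsum, sum_range_succ', map_add, map_sum]
    rw [e4, ρ0, hPu0]
    simp only [mul_zero, map_zero, zero_mul, add_zero]
    ring
  have hfin : PU * (1 - X) = C p := by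
    have h3 : PU * (1 - X + C β * X ^ k) = C p + C β * (X ^ k * PU) := by
      conv_lhs => rw [hmain]
      calc A * (C p + C β * (X ^ k * PU)) * (1 - X + C β * X ^ k)
          = (A * (1 - X + C β * X ^ k)) * (C p + C β * (X ^ k * PU)) := by ring
        _ = _ := by rw [hA1, one_mul]
    linear_combination h3
  have hUp : ∀ n, U n = p := by
    intro n
    induction n with
    | zero =>
      have := congrArg (PowerSeries.coeff 0) hfin
      simp only [mul_sub, mul_one, map_sub] at this
      simpa [hPU] using this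
    | succ n ih =>
      have := congrArg (PowerSeries.coeff (n + 1)) hfin
      rw [mul_sub, mul_one, map_sub, coeff_succ_mul_X, hPU, coeff_mk, coeff_mk, coeff_C,
        if_neg (by omega)] at this
      linarith
  exact hUp j

end Pool.Agent.PKA
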